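import Pool.Agent.H42.Mix.Main
import Pool.Agent.H39.Dy.Identity

/-!
Blow-up below the Lions exponent, global regularity from the Lions exponent on, for scalar
nearest-neighbour dyadic models of the Navier-Stokes equations.
-/

open Set Filter Topology

namespace Pool.Agent.H42.Flag

open Pool.Agent.H39.Dy (IsSol Rapid)
open Pool.Agent.H42.Mix (Reg blowup)

/-- the sequence decreases faster than every geometric sequence -/
def Fast (x : ℕ → ℝ) : Prop := ∀ s : ℝ, 0 < s → ∃ C : ℝ, ∀ n, s ^ n * |x n| ≤ C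

/-- there is a global smooth solution with data `x` -/
def Global (α β B D ν : ℝ) (x : ℕ → ℝ) : Prop :=
  ∃ X : ℕ → ℝ → ℝ, (∀ n, X n 0 = x n) ∧ ∀ T, 0 ≤ T → IsSol α β B D ν T X ∧ Rapid T X

/-- the smooth solution with data `x` exists on `[0, T₀)`, is unique there, satisfies the energy
identity, and `B ^ n |X_n(t)|` is unbounded on `[0, T₀)` -/
def BlowsUpAt (α β B D ν : ℝ) (x : ℕ → ℝ) (T₀ : ℝ) : Prop :=
  0 < T₀ ∧ ∃ X : ℕ → ℝ → ℝ, (∀ n, X n 0 = x n) ∧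
    (∀ T, 0 ≤ T → T < T₀ → IsSol α β B D ν T X ∧ Rapid T X ∧
      HasSum (fun n => X n T ^ 2 + 2 * ν * ∫ s in (0 : ℝ)..T, D ^ n * X n s ^ 2) (∑' n, x n ^ 2) ∧
      ∀ Y : ℕ → ℝ → ℝ, IsSol α β B D ν T Y → (∃ K : ℝ, ∀ n, ∀ t ∈ Icc 0 T, B ^ n * |Y n t| ≤ K) →
        (∀ n, Y n 0 = x n) → ∀ n, ∀ t ∈ Icc 0 T, Y n t = X n t) ∧
    ∀ K : ℝ, ∃ n, ∃ t ∈ Ico 0 T₀, K < B ^ n * |X n t|

/-- `(A, c, 0, 0, …)` -/
def two (A c : ℝ) : ℕ → ℝ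
  | 0 => A
  | 1 => c
  | _ + 2 => 0

theorem two_fast (A c : ℝ) : Fast (two A c) := by
  intro s hs
  refine ⟨|A| + s * |c|, fun n => ?_⟩
  match n with
  | 0 =>
    simp only [two, pow_zero, one_mul]
    have : 0 ≤ s * |c| := by positivity
    linarith
  | 1 =>
    simp only [two, pow_one]
    have := abs_nonneg A
    linarith
  | n + 2 =>
    simp only [two, abs_zero, mul_zero]
    positivity

theorem isSol_iff' {α β B D ν T : ℝ} {X : ℕ → ℝ → ℝ} :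
    IsSol α β B D ν T X ↔ Pool.Agent.H42.Mix.IsSol α β B D ν T X := by
  have e : ∀ (x : ℕ → ℝ) n, Pool.Agent.H39.Dy.gain α β B x n = Pool.Agent.H42.Mix.gain α β B x n := by
    intro x n
    cases n <;> rfl
  unfold Pool.Agent.H39.Dy.IsSol Pool.Agent.H42.Mix.IsSol
  simp only [e]

theorem rapid_reg {B T : ℝ} (hB : 1 < B) {X : ℕ → ℝ → ℝ} (h : Rapid T X) : Reg B T X := by
  obtain ⟨C, hC⟩ := h B (by linarith)
  have hB0 : 0 < B := by linarith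
  refine ⟨C, 1 / B, by positivity, ?_, fun n t ht => ?_⟩
  · have : B * (1 / B) ^ 3 = 1 / B ^ 2 := by field_simp
    rw [this, div_lt_one (by positivity)]
    nlinarith
  · have := hC n t ht
    rw [one_div, inv_pow, ← div_eq_mul_inv, le_div_iff₀ (by positivity)]
    linarith

/-- Either a global smooth solution or blow-up. -/
theorem dichotomy (α β : ℝ) {B D ν : ℝ} (hB : 0 < B) (hD : 0 ≤ D) (hν : 0 ≤ ν) {x : ℕ → ℝ}
    (hx : Fast x) : Global α β B D ν x ∨ ∃ T₀, BlowsUpAt α β B D ν x T₀ := by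
  rcases Pool.Agent.H39.Dy.wellposed α β hB hD hν hx with hg | ⟨T₀, hT₀, X, hX, hs, hunb⟩
  · exact Or.inl hg
  · refine Or.inr ⟨T₀, hT₀, X, hX, fun T hT hlt => ?_, hunb⟩
    obtain ⟨h1, h2⟩ := hs T hT hlt
    refine ⟨h1, h2, ?_, fun Y hY hb h0 n t ht => ?_⟩
    · have := h1.energy_identity h2 hB hD hν T ⟨hT, le_rfl⟩
      simpa only [hX] using this
    · exact Pool.Agent.H39.Dy.unique hB hD hν hY h1 hb (h2 B hB) (fun n => by rw [h0 n, hX n]) n t ht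

/-- Blow-up in the full sense. -/
theorem blow (α β B D ν T : ℝ) (hB : 1024 ≤ B) (hD : 0 < D) (hD' : D ≤ 7 / 10 * B)
    (hβ : 0 < β) (h1 : Real.exp (-(2 * B)) * β ≤ α) (h2 : α ≤ Real.exp (-B) * β)
    (hν : 0 ≤ ν) (hT : 0 < T) :
    ∃ A₀ : ℝ, ∀ A, A₀ ≤ A →
      (¬ ∃ X : ℕ → ℝ → ℝ, IsSol α β B D ν T X ∧ Reg B T X ∧
        ∀ n, X n 0 = two A (A / B ^ 2) n) ∧
      ∃ T₀, T₀ ≤ T ∧ BlowsUpAt α β B D ν (two A (A / B ^ 2)) T₀ := by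
  obtain ⟨A₀, hA₀, h⟩ := blowup α β B D ν T hB hD hD' hβ h1 h2 hν hT
  refine ⟨A₀, fun A hA => ?_⟩
  have hno : ¬ ∃ X : ℕ → ℝ → ℝ, IsSol α β B D ν T X ∧ Reg B T X ∧
      ∀ n, X n 0 = two A (A / B ^ 2) n := by
    rintro ⟨X, h1, h2, h3⟩
    refine h A hA ⟨X, isSol_iff'.mp h1, h2, h3 0, h3 1, fun n hn => ?_⟩
    obtain ⟨m, rfl⟩ := Nat.exists_eq_add_of_le' hn
    exact h3 (m + 2)
  refine ⟨hno, ?_⟩
  rcases dichotomy α β (by linarith : 0 < B) hD.le hν (two_fast A (A / B ^ 2)) with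
    ⟨X, hX, hs⟩ | ⟨T₀, hbl⟩
  · exact absurd ⟨X, (hs T hT.le).1, rapid_reg (by linarith) (hs T hT.le).2, hX⟩ hno
  · refine ⟨T₀, ?_, hbl⟩
    obtain ⟨hT₀, X, hX, hs, hunb⟩ := hbl
    by_contra hlt
    push Not at hlt
    obtain ⟨a, b, -⟩ := hs T hT.le hlt
    exact hno ⟨X, a, rapid_reg (by linarith) b, hX⟩

/-- Large data blow up, shell ratio `lam`, dissipation `(-Δ) ^ s`, viscosity `ν`, coupling constants
`α`, `β`: for every time `T`, every large amplitude `A` leads to blow-up before time `T`. -/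
def LargeDataBlowUp (lam s ν α β : ℝ) : Prop :=
  ∀ T : ℝ, 0 < T → ∃ A₀ : ℝ, ∀ A, A₀ ≤ A →
    (¬ ∃ X : ℕ → ℝ → ℝ, IsSol α β (lam ^ (5 / 2 : ℝ)) (lam ^ (2 * s)) ν T X ∧
      Reg (lam ^ (5 / 2 : ℝ)) T X ∧ ∀ n, X n 0 = two A (A / (lam ^ (5 / 2 : ℝ)) ^ 2) n) ∧
    ∃ T₀, T₀ ≤ T ∧
      BlowsUpAt α β (lam ^ (5 / 2 : ℝ)) (lam ^ (2 * s)) ν (two A (A / (lam ^ (5 / 2 : ℝ)) ^ 2)) T₀

theorem largeDataBlowUp {lam s ν α β : ℝ} (hl : 16 ≤ lam) (hs : lam ^ (2 * s - 5 / 2) ≤ 7 / 10)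
    (hν : 0 ≤ ν) (hβ : 0 < β) (h1 : Real.exp (-(2 * lam ^ (5 / 2 : ℝ))) * β ≤ α)
    (h2 : α ≤ Real.exp (-(lam ^ (5 / 2 : ℝ))) * β) : LargeDataBlowUp lam s ν α β := by
  intro T hT
  have h0 : 0 < lam := by linarith
  refine blow α β _ _ ν T ?_ (Real.rpow_pos_of_pos h0 _) ?_ hβ h1 h2 hν hT
  · have : (16 : ℝ) ^ (5 / 2 : ℝ) = 1024 := by
      rw [show (16 : ℝ) = 4 ^ (2 : ℝ) by norm_num, ← Real.rpow_mul (by norm_num),
        show (2 : ℝ) * (5 / 2) = ((5 : ℕ) : ℝ) by norm_num, Real.rpow_natCast]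
      norm_num
    rw [← this]
    exact Real.rpow_le_rpow (by norm_num) hl (by norm_num)
  · rw [Real.rpow_sub h0, div_le_iff₀ (Real.rpow_pos_of_pos h0 _)] at hs
    exact hs

theorem ns {lam ν α β : ℝ} (hl : 16 ≤ lam)
    (hν : 0 ≤ ν) (hβ : 0 < β) (h1 : Real.exp (-(2 * lam ^ (5 / 2 : ℝ))) * β ≤ α)
    (h2 : α ≤ Real.exp (-(lam ^ (5 / 2 : ℝ))) * β) : LargeDataBlowUp lam 1 ν α β := by
  refine largeDataBlowUp hl ?_ hν hβ h1 h2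
  have h0 : 0 < lam := by linarith
  rw [show (2 * (1 : ℝ) - 5 / 2) = -(1 / 2) by norm_num, Real.rpow_neg h0.le, ← Real.sqrt_eq_rpow]
  have : 4 ≤ Real.sqrt lam := Real.le_sqrt_of_sq_le (by linarith)
  calc (Real.sqrt lam)⁻¹ ≤ (4 : ℝ)⁻¹ := by gcongr
    _ ≤ 7 / 10 := by norm_num

theorem subLions {s : ℝ} (hs : s < 5 / 4) : ∃ lam₀ : ℝ, ∀ lam, lam₀ ≤ lam → 16 ≤ lam ∧
    lam ^ (2 * s - 5 / 2) ≤ 7 / 10 := by
  have h : Tendsto (fun l : ℝ => l ^ (-(5 / 2 - 2 * s))) atTop (𝓝 0) :=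
    tendsto_rpow_neg_atTop (by linarith)
  have h2 : ∀ᶠ l : ℝ in atTop, l ^ (-(5 / 2 - 2 * s)) < 7 / 10 := h.eventually_lt_const (by norm_num)
  obtain ⟨l₀, hl₀⟩ := (h2.and (eventually_ge_atTop 16)).exists_forall_of_atTop
  refine ⟨l₀, fun lam hl => ⟨(hl₀ lam hl).2, ?_⟩⟩
  rw [show 2 * s - 5 / 2 = -(5 / 2 - 2 * s) by ring]
  exact (hl₀ lam hl).1.le

theorem superLions {lam s ν : ℝ} (hl : 1 < lam) (hs : 5 / 4 ≤ s) (hν : 0 < ν) (α β : ℝ) {x : ℕ → ℝ}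
    (hx : Fast x) : Global α β (lam ^ (5 / 2 : ℝ)) (lam ^ (2 * s)) ν x := by
  obtain ⟨X, hX, h, -⟩ := Pool.Agent.H39.Dy.global α β (B := lam ^ (5 / 2 : ℝ)) (D := lam ^ (2 * s))
    (Real.one_le_rpow hl.le (by norm_num)) (Real.rpow_le_rpow_of_exponent_le hl.le (by linarith)) hν hx
  exact ⟨X, hX, h⟩

end Pool.Agent.H42.Flag
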