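import Mathlib

/-!
Right derivatives, an energy inequality for the tails of a mixed dyadic chain.
-/

open Set Filter Topology

namespace Pool.Agent.H42.Mix

/-- `v` is the right derivative of `f` at `s` -/
abbrev RD (f : ℝ → ℝ) (v s : ℝ) : Prop := HasDerivWithinAt f v (Ici s) s

lemma mono_of_rd {f f' : ℝ → ℝ} {a b : ℝ} (hf : ContinuousOn f (Icc a b))
    (hf' : ∀ x ∈ Ico a b, RD f (f' x) x) (h : ∀ x ∈ Ico a b, 0 ≤ f' x) :
    ∀ x ∈ Icc a b, f a ≤ f x := by
  intro x hx
  exact image_le_of_deriv_right_le_deriv_boundary (f := fun _ => f a) (f' := fun _ => 0)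
    continuousOn_const (fun y _ => hasDerivWithinAt_const _ _ _) le_rfl hf hf' h hx

lemma lip_of_rd {f f' : ℝ → ℝ} {a b c : ℝ} (hf : ContinuousOn f (Icc a b))
    (hf' : ∀ x ∈ Ico a b, RD f (f' x) x) (h : ∀ x ∈ Ico a b, |f' x| ≤ c) :
    ∀ x ∈ Icc a b, |f x - f a| ≤ c * (x - a) := by
  intro x hx
  rw [abs_le]
  constructor
  · have := mono_of_rd (f := fun x => f x + c * (x - a)) (f' := fun x => f' x + c)
      (hf.add (by fun_prop)) (fun y hy => by
        have := (hf' y hy).fun_add ((((hasDerivAt_id' y).hasDerivWithinAt).sub_const a).const_mul c)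
        simpa using this) (fun y hy => by have := (abs_le.1 (h y hy)).1; linarith) x hx
    simp only [sub_self, mul_zero, add_zero] at this
    linarith
  · have := mono_of_rd (f := fun x => c * (x - a) - f x) (f' := fun x => c - f' x)
      (ContinuousOn.sub (by fun_prop) hf) (fun y hy => by
        have := ((((hasDerivAt_id' y).hasDerivWithinAt).sub_const a).const_mul c).fun_sub (hf' y hy)
        simpa using this) (fun y hy => by have := (abs_le.1 (h y hy)).2; linarith) x hx
    simp only [sub_self, mul_zero, zero_sub] at this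
    linarith

lemma exists_antideriv {y : ℝ → ℝ} {S : ℝ} (hS : 0 ≤ S) (hy : ContinuousOn y (Icc 0 S)) :
    ∃ φ : ℝ → ℝ, Continuous φ ∧ φ 0 = 0 ∧ ∀ s ∈ Icc 0 S, HasDerivAt φ (y s) s := by
  let g : ℝ → ℝ := IccExtend hS (fun x : Icc (0:ℝ) S => y x)
  have hg : Continuous g := by
    apply Continuous.Icc_extend'
    exact continuousOn_iff_continuous_domRestrict.1 hy
  refine ⟨fun s => ∫ t in (0:ℝ)..s, g t, ?_, by simp, ?_⟩
  · exact continuous_iff_continuousAt.2 fun s =>
      (hg.integral_hasStrictDerivAt 0 s).hasDerivAt.continuousAt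
  · intro s hs
    have h := (hg.integral_hasStrictDerivAt 0 s).hasDerivAt
    have e : g s = y s := by
      simp only [g]
      rw [IccExtend_of_mem hS _ hs]
    rw [e] at h
    exact h

/-- A chain with input `i`, coupling coefficients `c` and damping `μ` on the time interval
`[a, b]`. -/
structure Chain (ε : ℝ) (c μ : ℕ → ℝ) (i : ℝ → ℝ) (V : ℕ → ℝ → ℝ) (a b : ℝ) : Prop where
  cont : ∀ k, ContinuousOn (V k) (Icc a b)
  d0 : ∀ s ∈ Ico a b,
    RD (V 0) (i s - μ 0 * V 0 s - c 0 * V 1 s * (ε * V 0 s + V 1 s)) s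
  dn : ∀ k, ∀ s ∈ Ico a b, RD (V (k + 1)) (c k * V k s * (ε * V k s + V (k + 1) s)
    - μ (k + 1) * V (k + 1) s - c (k + 1) * V (k + 2) s * (ε * V (k + 1) s + V (k + 2) s)) s

lemma Chain.energy {ε : ℝ} {c μ : ℕ → ℝ} {i : ℝ → ℝ} {V : ℕ → ℝ → ℝ} {a b : ℝ}
    (h : Chain ε c μ i V a b) (N : ℕ) : ∀ s ∈ Ico a b,
    RD (fun s => ∑ k ∈ Finset.range (N + 1), V k s ^ 2)
      (2 * i s * V 0 s - 2 * (∑ k ∈ Finset.range (N + 1), μ k * V k s ^ 2)
        - 2 * (c N * V N s * V (N + 1) s * (ε * V N s + V (N + 1) s))) s := by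
  induction N with
  | zero =>
    intro s hs
    have h1 := (h.d0 s hs).fun_pow 2
    simp only [zero_add, Finset.range_one, Finset.sum_singleton]
    refine h1.congr_deriv ?_
    push_cast
    ring
  | succ N ih =>
    intro s hs
    have h1 := (ih s hs).fun_add ((h.dn N s hs).fun_pow 2)
    simp only [Finset.sum_range_succ (fun k => V k _ ^ 2) (N + 1)]
    refine h1.congr_deriv ?_
    rw [Finset.sum_range_succ (fun k => μ k * V k s ^ 2) (N + 1)]
    push_cast
    ring

/-- The tail inequality. -/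
theorem Chain.tail {ε : ℝ} {c μ : ℕ → ℝ} {i : ℝ → ℝ} {V : ℕ → ℝ → ℝ} {a b : ℝ}
    (h : Chain ε c μ i V a b) (hε : 0 ≤ ε) (hμ : ∀ k, 0 ≤ μ k)
    {r Q F : ℝ} {q Φ Φ' : ℝ → ℝ} (hr : 0 ≤ r) (hQ0 : 0 ≤ Q) (hF : 0 ≤ F)
    (hi : ∀ s ∈ Ico a b, i s = r * q s * (ε * q s + V 0 s))
    (hq : ∀ s ∈ Ico a b, |q s| ≤ Q)
    (hΦc : ContinuousOn Φ (Icc a b)) (hΦ : ∀ s ∈ Ico a b, RD Φ (Φ' s) s)
    (hΦ' : ∀ s ∈ Ico a b, r * |q s| ≤ Φ' s)
    (hflux : ∀ η : ℝ, 0 < η → ∃ N₀ : ℕ, ∀ N, N₀ ≤ N → ∀ s ∈ Ico a b,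
      |c N * V N s * V (N + 1) s * (ε * V N s + V (N + 1) s)| ≤ η)
    (h0 : ∀ N, ∑ k ∈ Finset.range (N + 1), V k a ^ 2 ≤ F ^ 2) :
    ∀ N, ∀ s ∈ Icc a b, ∑ k ∈ Finset.range (N + 1), V k s ^ 2 ≤
      (Real.exp (Φ s - Φ a) * (F + ε * Q)) ^ 2 := by
  intro N s hs
  -- approximate barrier
  have key : ∀ η : ℝ, 0 < η → ∑ k ∈ Finset.range (N + 1), V k s ^ 2 ≤
      (Real.exp (Φ s - Φ a + η * (s - a)) * (F + η + ε * Q)) ^ 2 := by
    intro η hη
    obtain ⟨N₀, hN₀⟩ := hflux (η ^ 3 / 2) (by positivity)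
    set M := max N N₀ with hM
    have hεQ : 0 ≤ ε * Q := mul_nonneg hε hQ0
    let G : ℝ → ℝ := fun s => Real.exp (Φ s - Φ a + η * (s - a)) * (F + η + ε * Q) - ε * Q
    let G' : ℝ → ℝ := fun s => Real.exp (Φ s - Φ a + η * (s - a)) * (Φ' s + η) * (F + η + ε * Q)
    have hΦmono : ∀ x ∈ Icc a b, Φ a ≤ Φ x := by
      apply mono_of_rd hΦc hΦ
      intro x hx
      exact (mul_nonneg hr (abs_nonneg _)).trans (hΦ' x hx)
    have hexp : ∀ x ∈ Icc a b, 1 ≤ Real.exp (Φ x - Φ a + η * (x - a)) := by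
      intro x hx
      apply Real.one_le_exp
      have h1 := hΦmono x hx
      have h2 : 0 ≤ η * (x - a) := mul_nonneg hη.le (by linarith [hx.1])
      linarith
    have hGlow : ∀ x ∈ Icc a b, F + η ≤ G x := by
      intro x hx
      have := hexp x hx
      simp only [G]
      nlinarith [mul_nonneg (sub_nonneg.2 this) (show 0 ≤ F + η + ε * Q by positivity)]
    have hGc : ContinuousOn G (Icc a b) := by
      simp only [G]
      refine ContinuousOn.sub (ContinuousOn.mul (ContinuousOn.rexp ?_) continuousOn_const)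
        continuousOn_const
      exact (hΦc.sub continuousOn_const).add (by fun_prop)
    have hGd : ∀ x ∈ Ico a b, RD G (G' x) x := by
      intro x hx
      have h1 : RD (fun s => Φ s - Φ a + η * (s - a)) (Φ' x + η) x := by
        have := ((hΦ x hx).sub_const (Φ a)).fun_add
          ((((hasDerivAt_id' x).hasDerivWithinAt).sub_const a).const_mul η)
        simpa using this
      exact (h1.exp.mul_const (F + η + ε * Q)).sub_const (ε * Q)
    have hb := image_le_of_deriv_right_lt_deriv_boundary'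
      (f := fun s => ∑ k ∈ Finset.range (M + 1), V k s ^ 2)
      (f' := fun s => 2 * i s * V 0 s - 2 * (∑ k ∈ Finset.range (M + 1), μ k * V k s ^ 2)
        - 2 * (c M * V M s * V (M + 1) s * (ε * V M s + V (M + 1) s)))
      (a := a) (b := b)
      (continuousOn_finsetSum _ fun k _ => (h.cont k).pow 2) (h.energy M)
      (B := fun s => G s ^ 2) (B' := fun s => 2 * G s * G' s)
      (by
        have ha := hGlow a ⟨le_rfl, hs.1.trans hs.2⟩
        calc ∑ k ∈ Finset.range (M + 1), V k a ^ 2 ≤ F ^ 2 := h0 M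
          _ ≤ G a ^ 2 := by
            apply pow_le_pow_left₀ hF
            linarith)
      (hGc.pow 2)
      (by
        intro x hx
        have := (hGd x hx).fun_pow 2
        simpa using this)
      (by
        intro x hx hx2
        have hxI : x ∈ Icc a b := ⟨hx.1, hx.2.le⟩
        have hG0 : η ≤ G x := by linarith [hGlow x hxI]
        have hGpos : 0 < G x := lt_of_lt_of_le hη hG0
        have hflx := (abs_le.1 (hN₀ M (le_max_right _ _) x hx)).1
        have hμs : 0 ≤ ∑ k ∈ Finset.range (M + 1), μ k * V k x ^ 2 :=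
          Finset.sum_nonneg fun k _ => mul_nonneg (hμ k) (sq_nonneg _)
        have hV0 : |V 0 x| ≤ G x := by
          apply abs_le_of_sq_le_sq _ hGpos.le
          rw [← hx2]
          exact Finset.single_le_sum (f := fun k => V k x ^ 2) (fun k _ => sq_nonneg _)
            (Finset.mem_range.2 (Nat.succ_pos M))
        have hiV : i x * V 0 x ≤ r * |q x| * (ε * Q + G x) * G x := by
          rw [hi x hx]
          have e1 : r * q x * (ε * q x + V 0 x) * V 0 x ≤
              |r * q x * (ε * q x + V 0 x) * V 0 x| := le_abs_self _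
          refine e1.trans ?_
          rw [abs_mul, abs_mul, abs_mul, abs_of_nonneg hr]
          have e2 : |ε * q x + V 0 x| ≤ ε * Q + G x := by
            refine (abs_add_le _ _).trans ?_
            rw [abs_mul, abs_of_nonneg hε]
            have := mul_le_mul_of_nonneg_left (hq x hx) hε
            linarith
          have e3 : 0 ≤ r * |q x| := mul_nonneg hr (abs_nonneg _)
          gcongr
        have hGG : Real.exp (Φ x - Φ a + η * (x - a)) * (F + η + ε * Q) = G x + ε * Q := by
          simp only [G]; ring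
        have hG' : G' x = (Φ' x + η) * (G x + ε * Q) := by
          rw [← hGG]; simp only [G']; ring
        rw [hG']
        have h5 := hΦ' x hx
        have h6 : r * |q x| * (ε * Q + G x) * G x ≤ Φ' x * (G x + ε * Q) * G x := by
          have : 0 ≤ (G x + ε * Q) * G x := by positivity
          nlinarith [mul_le_mul_of_nonneg_right h5 this]
        have h7 : η ^ 3 ≤ η * (G x + ε * Q) * G x := by
          have : η * η ≤ (G x + ε * Q) * G x := by
            apply mul_le_mul (by linarith) hG0 hη.le (by linarith)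
          nlinarith [mul_le_mul_of_nonneg_left this hη.le]
        have h8 : 0 < η ^ 3 := by positivity
        nlinarith)
    have h1 := hb hs
    calc ∑ k ∈ Finset.range (N + 1), V k s ^ 2
        ≤ ∑ k ∈ Finset.range (M + 1), V k s ^ 2 := by
          apply Finset.sum_le_sum_of_subset_of_nonneg
          · intro k hk
            simp only [Finset.mem_range] at hk ⊢
            have := le_max_left N N₀
            omega
          · intro k _ _
            exact sq_nonneg _
      _ ≤ G s ^ 2 := h1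
      _ ≤ (Real.exp (Φ s - Φ a + η * (s - a)) * (F + η + ε * Q)) ^ 2 := by
          apply pow_le_pow_left₀
          · linarith [hGlow s hs]
          · simp only [G]; linarith
  -- let η → 0
  have hlim : Tendsto (fun η : ℝ => (Real.exp (Φ s - Φ a + η * (s - a)) * (F + η + ε * Q)) ^ 2)
      (𝓝[>] 0) (𝓝 ((Real.exp (Φ s - Φ a + 0 * (s - a)) * (F + 0 + ε * Q)) ^ 2)) := by
    apply tendsto_nhdsWithin_of_tendsto_nhds
    apply Continuous.tendsto
    fun_prop
  have h2 := ge_of_tendsto hlim (eventually_nhdsWithin_of_forall fun η hη => key η hη)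
  simpa using h2

/-- The tail inequality for the first entry. -/
theorem tail_abs {V : ℕ → ℝ → ℝ} {s E : ℝ}
    (hE : 0 ≤ E) (h : ∀ N, ∑ k ∈ Finset.range (N + 1), V k s ^ 2 ≤ E ^ 2) (k : ℕ) :
    |V k s| ≤ E := by
  apply abs_le_of_sq_le_sq _ hE
  refine le_trans ?_ (h k)
  exact Finset.single_le_sum (f := fun k => V k s ^ 2) (fun k _ => sq_nonneg _)
    (Finset.mem_range.2 (Nat.lt_succ_self k))

end Pool.Agent.H42.Mix
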