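import Pool.Agent.H42.Mix.Basic

/-!
The two-mode rotation at the heart of a stage of the cascade, and the growth of the third mode.
-/

open Set Filter Topology

namespace Pool.Agent.H42.Mix

/-- data for the rotation of two modes `x, y` -/
structure Rot (b θ s1 : ℝ) (x y e1 e2 φ : ℝ → ℝ) : Prop where
  hb : 32 ≤ b
  hθ : 0 < θ
  hθ' : θ * b ^ 4 = 1
  hs : 0 ≤ s1
  hs1 : s1 ≤ b
  cx : ContinuousOn x (Icc 0 s1)
  cy : ContinuousOn y (Icc 0 s1)
  cφ : ContinuousOn φ (Icc 0 s1)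
  dx : ∀ s ∈ Ico 0 s1, RD x (-y s ^ 2 + e1 s) s
  dy : ∀ s ∈ Ico 0 s1, RD y (x s * y s + e2 s) s
  dφ : ∀ s ∈ Ico 0 s1, RD φ (y s) s
  x0 : x 0 = 1
  y0 : y 0 = θ
  φ0 : φ 0 = 0
  ypos : ∀ s ∈ Ico 0 s1, 0 < y s
  φlt : ∀ s ∈ Ico 0 s1, φ s < 2
  err : ∀ s ∈ Ico 0 s1, (|e1 s| + |e2 s|) * b ≤ 3 / 50
  elow : ∀ s ∈ Ico 0 s1, -(1 / 50) * y s ≤ e2 s

variable {b θ s1 : ℝ} {x y e1 e2 φ : ℝ → ℝ}

lemma Rot.xi (h : Rot b θ s1 x y e1 e2 φ) : ∀ s ∈ Icc 0 s1,
    |x s * Real.cos (φ s) + y s * Real.sin (φ s) - 1| ≤ 3 / 50 := by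
  have hb0 : 0 < b := by linarith [h.hb]
  intro s hs
  have h1 := lip_of_rd (f := fun s => x s * Real.cos (φ s) + y s * Real.sin (φ s))
    (f' := fun s => (-y s ^ 2 + e1 s) * Real.cos (φ s) + x s * (-Real.sin (φ s) * y s)
      + ((x s * y s + e2 s) * Real.sin (φ s) + y s * (Real.cos (φ s) * y s)))
    (a := 0) (b := s1) (c := 3 / 50 / b)
    ((h.cx.mul (Real.continuous_cos.comp_continuousOn h.cφ)).add
      (h.cy.mul (Real.continuous_sin.comp_continuousOn h.cφ)))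
    (fun t ht => ((h.dx t ht).fun_mul ((h.dφ t ht).cos)).fun_add
      ((h.dy t ht).fun_mul ((h.dφ t ht).sin)))
    (fun t ht => by
      have e : (-y t ^ 2 + e1 t) * Real.cos (φ t) + x t * (-Real.sin (φ t) * y t)
          + ((x t * y t + e2 t) * Real.sin (φ t) + y t * (Real.cos (φ t) * y t)) =
          e1 t * Real.cos (φ t) + e2 t * Real.sin (φ t) := by ring
      rw [e, le_div_iff₀ hb0]
      refine le_trans (mul_le_mul_of_nonneg_right ?_ hb0.le) (h.err t ht)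
      refine (abs_add_le _ _).trans (add_le_add ?_ ?_)
      · rw [abs_mul]
        exact mul_le_of_le_one_right (abs_nonneg _) (Real.abs_cos_le_one _)
      · rw [abs_mul]
        exact mul_le_of_le_one_right (abs_nonneg _) (Real.abs_sin_le_one _)) s hs
  simp only [h.x0, h.y0, h.φ0, Real.cos_zero, Real.sin_zero, mul_one, mul_zero, add_zero,
    sub_zero] at h1
  refine h1.trans ?_
  have h2 : s / b ≤ 1 := by
    rw [div_le_one hb0]; exact hs.2.trans h.hs1
  calc 3 / 50 / b * s = 3 / 50 * (s / b) := by ring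
    _ ≤ 3 / 50 * 1 := by gcongr
    _ = 3 / 50 := by ring

lemma Rot.zeta (h : Rot b θ s1 x y e1 e2 φ) : ∀ s ∈ Icc 0 s1,
    |-(x s * Real.sin (φ s)) + y s * Real.cos (φ s) - θ| ≤ 3 / 50 := by
  have hb0 : 0 < b := by linarith [h.hb]
  intro s hs
  have h1 := lip_of_rd (f := fun s => -(x s * Real.sin (φ s)) + y s * Real.cos (φ s))
    (f' := fun s => -((-y s ^ 2 + e1 s) * Real.sin (φ s) + x s * (Real.cos (φ s) * y s))
      + ((x s * y s + e2 s) * Real.cos (φ s) + y s * (-Real.sin (φ s) * y s)))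
    (a := 0) (b := s1) (c := 3 / 50 / b)
    (((h.cx.mul (Real.continuous_sin.comp_continuousOn h.cφ)).neg).add
      (h.cy.mul (Real.continuous_cos.comp_continuousOn h.cφ)))
    (fun t ht => ((h.dx t ht).fun_mul ((h.dφ t ht).sin)).fun_neg.fun_add
      ((h.dy t ht).fun_mul ((h.dφ t ht).cos)))
    (fun t ht => by
      have e : -((-y t ^ 2 + e1 t) * Real.sin (φ t) + x t * (Real.cos (φ t) * y t))
          + ((x t * y t + e2 t) * Real.cos (φ t) + y t * (-Real.sin (φ t) * y t)) =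
          -(e1 t * Real.sin (φ t)) + e2 t * Real.cos (φ t) := by ring
      rw [e, le_div_iff₀ hb0]
      refine le_trans (mul_le_mul_of_nonneg_right ?_ hb0.le) (h.err t ht)
      refine (abs_add_le _ _).trans (add_le_add ?_ ?_)
      · rw [abs_neg, abs_mul]
        exact mul_le_of_le_one_right (abs_nonneg _) (Real.abs_sin_le_one _)
      · rw [abs_mul]
        exact mul_le_of_le_one_right (abs_nonneg _) (Real.abs_cos_le_one _)) s hs
  simp only [h.x0, h.y0, h.φ0, Real.cos_zero, Real.sin_zero, mul_one, mul_zero, neg_zero,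
    zero_add, sub_zero] at h1
  refine h1.trans ?_
  have h2 : s / b ≤ 1 := by
    rw [div_le_one hb0]; exact hs.2.trans h.hs1
  calc 3 / 50 / b * s = 3 / 50 * (s / b) := by ring
    _ ≤ 3 / 50 * 1 := by gcongr
    _ = 3 / 50 := by ring

lemma Rot.θle (h : Rot b θ s1 x y e1 e2 φ) : θ ≤ 1 / 10000 := by
  have h1 : (10000 : ℝ) ≤ b ^ 4 := by
    have := pow_le_pow_left₀ (by norm_num) h.hb 4
    norm_num at this ⊢
    linarith
  nlinarith [h.hθ', h.hθ]

/-- lower bound for `y` in terms of the angle -/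
lemma Rot.ylow (h : Rot b θ s1 x y e1 e2 φ) : ∀ s ∈ Icc 0 s1, 0 ≤ Real.sin (φ s) →
    94 / 100 * Real.sin (φ s) - 601 / 10000 * |Real.cos (φ s)| ≤ y s := by
  intro s hs hsin
  have h1 := (abs_le.1 (h.xi s hs)).1
  have h2 := abs_le.1 (h.zeta s hs)
  have hθ := h.θle
  have hθ0 := h.hθ
  set c := Real.cos (φ s)
  set d := Real.sin (φ s)
  have hcd : d ^ 2 + c ^ 2 = 1 := Real.sin_sq_add_cos_sq _
  have e : y s = (x s * c + y s * d) * d + (-(x s * d) + y s * c) * c := by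
    have : y s = y s * (d ^ 2 + c ^ 2) := by rw [hcd, mul_one]
    nth_rewrite 1 [this]
    ring
  have h3 : 94 / 100 * d ≤ (x s * c + y s * d) * d :=
    mul_le_mul_of_nonneg_right (by linarith) hsin
  have h4 : |(-(x s * d) + y s * c) * c| ≤ 601 / 10000 * |c| := by
    rw [abs_mul]
    apply mul_le_mul_of_nonneg_right _ (abs_nonneg _)
    rw [abs_le]
    constructor <;> linarith [h2.1, h2.2]
  have h5 := (abs_le.1 h4).1
  rw [e]
  linarith

/-- lower bound for `x` in terms of the angle -/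
lemma Rot.xlow (h : Rot b θ s1 x y e1 e2 φ) : ∀ s ∈ Icc 0 s1, 0 ≤ φ s → φ s ≤ 1 / 2 →
    77 / 100 ≤ x s := by
  intro s hs hφ0 hφ
  have h1 := (abs_le.1 (h.xi s hs)).1
  have h2 := abs_le.1 (h.zeta s hs)
  have hθ := h.θle
  have hθ0 := h.hθ
  have hc : 7 / 8 ≤ Real.cos (φ s) := by
    have := Real.one_sub_sq_div_two_le_cos (x := φ s)
    nlinarith
  have hd : |Real.sin (φ s)| ≤ 1 / 2 := by
    have := Real.abs_sin_le_abs (x := φ s)
    rw [abs_of_nonneg hφ0] at this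
    linarith
  set c := Real.cos (φ s)
  set d := Real.sin (φ s)
  have hcd : d ^ 2 + c ^ 2 = 1 := Real.sin_sq_add_cos_sq _
  have e : x s = (x s * c + y s * d) * c - (-(x s * d) + y s * c) * d := by
    have : x s = x s * (d ^ 2 + c ^ 2) := by rw [hcd, mul_one]
    nth_rewrite 1 [this]
    ring
  have h3 : 94 / 100 * c ≤ (x s * c + y s * d) * c :=
    mul_le_mul_of_nonneg_right (by linarith) (by linarith)
  have h4 : |(-(x s * d) + y s * c) * d| ≤ 601 / 10000 * (1 / 2) := by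
    rw [abs_mul]
    apply mul_le_mul _ hd (abs_nonneg _) (by norm_num)
    rw [abs_le]
    constructor <;> linarith [h2.1, h2.2]
  have h5 := (abs_le.1 h4).2
  rw [e]
  linarith

lemma Rot.φmono (h : Rot b θ s1 x y e1 e2 φ) : ∀ s ∈ Icc 0 s1, ∀ t ∈ Icc s s1, φ s ≤ φ t := by
  intro s hs t ht
  exact mono_of_rd (a := s) (b := s1) (h.cφ.mono (Icc_subset_Icc_left hs.1))
    (fun r hr => h.dφ r ⟨hs.1.trans hr.1, hr.2⟩)
    (fun r hr => (h.ypos r ⟨hs.1.trans hr.1, hr.2⟩).le) t ht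

lemma Rot.φnonneg (h : Rot b θ s1 x y e1 e2 φ) : ∀ s ∈ Icc 0 s1, 0 ≤ φ s := by
  intro s hs
  have := h.φmono 0 ⟨le_rfl, h.hs⟩ s hs
  rwa [h.φ0] at this

lemma Rot.φle (h : Rot b θ s1 x y e1 e2 φ) (hs : 0 < s1) : ∀ s ∈ Icc 0 s1, φ s ≤ 2 := by
  have h1 : φ s1 ≤ 2 := by
    have hc : ContinuousWithinAt φ (Ico 0 s1) s1 :=
      (h.cφ s1 ⟨hs.le, le_rfl⟩).mono Ico_subset_Icc_self
    have hne : (𝓝[Ico 0 s1] s1).NeBot := by
      apply mem_closure_iff_nhdsWithin_neBot.1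
      rw [closure_Ico hs.ne]
      exact ⟨hs.le, le_rfl⟩
    exact le_of_tendsto hc (eventually_nhdsWithin_of_forall fun t ht => (h.φlt t ht).le)
  intro s hs
  exact (h.φmono s hs s1 ⟨hs.2, le_rfl⟩).trans h1

/-- growth of `y` while the angle is small -/
lemma Rot.ygrow (h : Rot b θ s1 x y e1 e2 φ) : ∀ s ∈ Icc 0 s1, φ s ≤ 1 / 2 →
    ∀ t ∈ Ico 0 s, 3 / 4 * y t ≤ x t * y t + e2 t := by
  intro s hs hφ t ht
  have ht1 : t ∈ Ico 0 s1 := ⟨ht.1, ht.2.trans_le hs.2⟩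
  have ht2 : t ∈ Icc 0 s1 := ⟨ht1.1, ht1.2.le⟩
  have h1 : φ t ≤ 1 / 2 := (h.φmono t ht2 s ⟨ht.2.le, hs.2⟩).trans hφ
  have h2 := h.xlow t ht2 (h.φnonneg t ht2) h1
  have h3 := h.elow t ht1
  have h4 := h.ypos t ht1
  nlinarith

lemma Rot.yφ (h : Rot b θ s1 x y e1 e2 φ) : ∀ s ∈ Icc 0 s1, φ s ≤ 1 / 2 →
    θ + 3 / 4 * φ s ≤ y s := by
  intro s hs hφ
  have h1 := mono_of_rd (f := fun t => y t - 3 / 4 * φ t)
    (f' := fun t => x t * y t + e2 t - 3 / 4 * y t) (a := 0) (b := s)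
    ((h.cy.sub (continuousOn_const.mul h.cφ)).mono (Icc_subset_Icc_right hs.2))
    (fun t ht => (h.dy t ⟨ht.1, ht.2.trans_le hs.2⟩).fun_sub
      ((h.dφ t ⟨ht.1, ht.2.trans_le hs.2⟩).const_mul (3 / 4)))
    (fun t ht => by linarith [h.ygrow s hs hφ t ht]) s ⟨hs.1, le_rfl⟩
  simp only [h.y0, h.φ0, mul_zero, sub_zero] at h1
  linarith

lemma Rot.yexp (h : Rot b θ s1 x y e1 e2 φ) : ∀ s ∈ Icc 0 s1, φ s ≤ 1 / 2 →
    θ * Real.exp (3 / 4 * s) ≤ y s := by
  intro s hs hφ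
  have h1 := mono_of_rd (f := fun t => y t * Real.exp (-(3 / 4 * t)))
    (f' := fun t => (x t * y t + e2 t) * Real.exp (-(3 / 4 * t)) +
      y t * (Real.exp (-(3 / 4 * t)) * -(3 / 4))) (a := 0) (b := s)
    ((h.cy.mono (Icc_subset_Icc_right hs.2)).mul (by fun_prop))
    (fun t ht => (h.dy t ⟨ht.1, ht.2.trans_le hs.2⟩).fun_mul (by
      have : HasDerivAt (fun t : ℝ => -(3 / 4 * t)) (-(3 / 4)) t := by
        simpa using ((hasDerivAt_id' t).const_mul (3 / 4 : ℝ)).fun_neg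
      exact this.exp.hasDerivWithinAt))
    (fun t ht => by
      have := h.ygrow s hs hφ t ht
      have e : (x t * y t + e2 t) * Real.exp (-(3 / 4 * t)) +
        y t * (Real.exp (-(3 / 4 * t)) * -(3 / 4)) =
        (x t * y t + e2 t - 3 / 4 * y t) * Real.exp (-(3 / 4 * t)) := by ring
      rw [e]
      exact mul_nonneg (by linarith) (Real.exp_pos _).le) s ⟨hs.1, le_rfl⟩
  simp only [h.y0, mul_zero, neg_zero, Real.exp_zero, mul_one] at h1
  have h2 : Real.exp (-(3 / 4 * s)) * Real.exp (3 / 4 * s) = 1 := by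
    rw [← Real.exp_add]; simp
  calc θ * Real.exp (3 / 4 * s) ≤ y s * Real.exp (-(3 / 4 * s)) * Real.exp (3 / 4 * s) := by
        gcongr
    _ = y s := by rw [mul_assoc, h2, mul_one]

lemma Rot.φexp (h : Rot b θ s1 x y e1 e2 φ) : ∀ s ∈ Icc 0 s1, φ s ≤ 1 / 2 →
    4 / 3 * θ * (Real.exp (3 / 4 * s) - 1) ≤ φ s := by
  intro s hs hφ
  have h1 := mono_of_rd (f := fun t => φ t - 4 / 3 * θ * Real.exp (3 / 4 * t))
    (f' := fun t => y t - 4 / 3 * θ * (Real.exp (3 / 4 * t) * (3 / 4))) (a := 0) (b := s)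
    ((h.cφ.mono (Icc_subset_Icc_right hs.2)).sub (by fun_prop))
    (fun t ht => (h.dφ t ⟨ht.1, ht.2.trans_le hs.2⟩).fun_sub (by
      have : HasDerivAt (fun t : ℝ => 3 / 4 * t) (3 / 4) t := by
        simpa using (hasDerivAt_id' t).const_mul (3 / 4 : ℝ)
      exact (this.exp.const_mul (4 / 3 * θ)).hasDerivWithinAt))
    (fun t ht => by
      have ht2 : t ∈ Icc 0 s1 := ⟨ht.1, ht.2.le.trans hs.2⟩
      have := h.yexp t ht2 ((h.φmono t ht2 s ⟨ht.2.le, hs.2⟩).trans hφ)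
      linarith) s ⟨hs.1, le_rfl⟩
  simp only [h.φ0, mul_zero, Real.exp_zero, mul_one] at h1
  linarith

lemma sin_half_low : 468 / 1000 ≤ Real.sin (1 / 2) := by
  have := Real.sin_gt_sub_cube (x := 1 / 2) (by norm_num)
  norm_num at this ⊢
  linarith

lemma sin_low {t : ℝ} (h1 : 1 / 2 ≤ t) (h2 : t ≤ 2) : 468 / 1000 ≤ Real.sin t := by
  have hpi := Real.pi_gt_d2
  have hpi' := Real.pi_lt_d2
  rcases le_total t (Real.pi / 2) with h | h
  · exact sin_half_low.trans (Real.sin_le_sin_of_le_of_le_pi_div_two (by linarith) h h1)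
  · rw [← Real.sin_pi_sub]
    exact sin_half_low.trans (Real.sin_le_sin_of_le_of_le_pi_div_two (by linarith) (by linarith)
      (by linarith))

lemma Rot.ymid (h : Rot b θ s1 x y e1 e2 φ) : ∀ s ∈ Icc 0 s1, 1 / 2 ≤ φ s → φ s ≤ 2 →
    37 / 100 ≤ y s := by
  intro s hs h1 h2
  have h3 := sin_low h1 h2
  have h4 := h.ylow s hs (by linarith)
  have h5 := Real.abs_cos_le_one (φ s)
  linarith

lemma Rot.yθ (h : Rot b θ s1 x y e1 e2 φ) (hs1 : 0 < s1) : ∀ s ∈ Icc 0 s1, θ ≤ y s := by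
  intro s hs
  have hθ := h.θle
  rcases le_total (φ s) (1 / 2) with h1 | h1
  · have := h.yφ s hs h1
    have := h.φnonneg s hs
    linarith
  · have := h.ymid s hs h1 (h.φle hs1 s hs)
    linarith

lemma exp_grow (hb : 32 ≤ b) : b ^ 4 ≤ Real.exp (3 / 4 * (b - 5)) := by
  have e1 : 3 / 4 * (b - 5) = 20 + (1 / 4 + 3 / 4 * (b - 32)) := by ring
  rw [e1, Real.exp_add]
  have h1 : (2 : ℝ) ^ 20 ≤ Real.exp 20 := by
    have : Real.exp 20 = Real.exp 1 ^ 20 := by rw [← Real.exp_nat_mul]; norm_num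
    rw [this]
    apply pow_le_pow_left₀ (by norm_num)
    have := Real.exp_one_gt_d9
    linarith
  have h2 : (1 + (b - 32) / 32) ^ 4 ≤ Real.exp (1 / 4 + 3 / 4 * (b - 32)) := by
    have h3 : (1 + (b - 32) / 32) ≤ Real.exp ((b - 32) / 32) := by
      have := Real.add_one_le_exp ((b - 32) / 32)
      linarith
    calc (1 + (b - 32) / 32) ^ 4 ≤ Real.exp ((b - 32) / 32) ^ 4 := by
          apply pow_le_pow_left₀ _ h3
          have : 0 ≤ (b - 32) / 32 := by linarith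
          linarith
      _ = Real.exp (4 * ((b - 32) / 32)) := by rw [← Real.exp_nat_mul]; norm_num
      _ ≤ _ := by
          apply Real.exp_le_exp.2
          linarith
  calc b ^ 4 = 2 ^ 20 * (1 + (b - 32) / 32) ^ 4 := by ring
    _ ≤ Real.exp 20 * Real.exp (1 / 4 + 3 / 4 * (b - 32)) := by gcongr

/-- the rotation cannot last up to time `b` -/
lemma Rot.not_b (h : Rot b θ s1 x y e1 e2 φ) : s1 < b := by
  by_contra hcon
  have hs1 : s1 = b := le_antisymm h.hs1 (not_lt.1 hcon)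
  subst hs1
  have hb := h.hb
  have h5 : s1 - 5 ∈ Icc 0 s1 := ⟨by linarith, by linarith⟩
  have hφ5 : 1 / 2 ≤ φ (s1 - 5) := by
    by_contra hc
    have h1 := h.φexp (s1 - 5) h5 (by linarith)
    have h2 := exp_grow hb
    have h3 := h.hθ'
    have h4 := h.hθ
    have h6 : 4 / 3 * θ * (s1 ^ 4 - 1) ≤ φ (s1 - 5) := by
      refine le_trans ?_ h1
      gcongr
    have := h.θle
    nlinarith
  have h7 := mono_of_rd (f := fun t => φ t - 37 / 100 * t) (f' := fun t => y t - 37 / 100 * 1)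
    (a := s1 - 5) (b := s1)
    ((h.cφ.mono (Icc_subset_Icc_left h5.1)).sub (by fun_prop))
    (fun t ht => (h.dφ t ⟨h5.1.trans ht.1, ht.2⟩).fun_sub
      ((hasDerivAt_id' t).const_mul (37 / 100 : ℝ)).hasDerivWithinAt)
    (fun t ht => by
      have ht2 : t ∈ Icc 0 s1 := ⟨h5.1.trans ht.1, ht.2.le⟩
      have := h.ymid t ht2 (hφ5.trans (h.φmono _ h5 t ⟨ht.1, ht.2.le⟩))
        (h.φle (by linarith) t ht2)
      linarith) s1 ⟨by linarith, le_rfl⟩
  have h8 := h.φle (by linarith) s1 ⟨by linarith, le_rfl⟩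
  linarith

/-- lower bound for the third mode -/
lemma Rot.zlow (h : Rot b θ s1 x y e1 e2 φ) {B ε ν : ℝ} {z z' : ℝ → ℝ} (hB : B = b ^ 2)
    (hε : 0 < ε) (hν : 0 ≤ ν) (hνb : ν * b ≤ 1 / 1000)
    (cz : ContinuousOn z (Icc 0 s1)) (dz : ∀ s ∈ Ico 0 s1, RD z (z' s) s)
    (hz' : ∀ s ∈ Ico 0 s1, B * y s * z s + 1 / 2 * (B * ε * y s ^ 2) - ν * z s ≤ z' s)
    (hz0 : -(20 * ε / B ^ 2) ≤ z 0) :
    ∀ s ∈ Icc 0 s1, 1 / 2 ≤ φ s → 1 / 3 * (ε / B) * Real.exp (B * φ s) ≤ z s := by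
  intro s hs hφs
  have hb := h.hb
  have hB1 : 1024 ≤ B := by rw [hB]; nlinarith
  -- the time at which the angle is 1/2
  obtain ⟨c, hc, hcφ⟩ : ∃ c ∈ Icc 0 s, φ c = 1 / 2 := by
    have := intermediate_value_Icc hs.1 (h.cφ.mono (Icc_subset_Icc_right hs.2))
    obtain ⟨c, hc, e⟩ := this (show (1 / 2 : ℝ) ∈ Icc (φ 0) (φ s) from
      ⟨by rw [h.φ0]; norm_num, hφs⟩)
    exact ⟨c, hc, e⟩
  have hcI : c ∈ Icc 0 s1 := ⟨hc.1, hc.2.trans hs.2⟩
  let Z : ℝ → ℝ := fun t => z t * Real.exp (-(B * φ t) + ν * t)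
  let Z' : ℝ → ℝ := fun t => z' t * Real.exp (-(B * φ t) + ν * t) +
    z t * (Real.exp (-(B * φ t) + ν * t) * (-(B * y t) + ν))
  have cZ : ContinuousOn Z (Icc 0 s1) :=
    cz.mul (ContinuousOn.rexp ((continuousOn_const.mul h.cφ).neg.add (by fun_prop)))
  have dZ : ∀ t ∈ Ico 0 s1, RD Z (Z' t) t := by
    intro t ht
    have h1 : RD (fun t => -(B * φ t) + ν * t) (-(B * y t) + ν) t := by
      have := ((h.dφ t ht).const_mul B).fun_neg.fun_add
        ((hasDerivAt_id' t).const_mul ν).hasDerivWithinAt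
      simpa using this
    exact (dz t ht).fun_mul h1.exp
  have hZ' : ∀ t ∈ Ico 0 s1, 1 / 2 * (B * ε * y t ^ 2) * Real.exp (-(B * φ t)) ≤ Z' t := by
    intro t ht
    have e : Z' t = (z' t - B * y t * z t + ν * z t) * Real.exp (-(B * φ t) + ν * t) := by
      simp only [Z']; ring
    rw [e]
    have h1 : 1 / 2 * (B * ε * y t ^ 2) ≤ z' t - B * y t * z t + ν * z t := by
      linarith [hz' t ht]
    have h2 : Real.exp (-(B * φ t)) ≤ Real.exp (-(B * φ t) + ν * t) := by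
      apply Real.exp_le_exp.2
      have := mul_nonneg hν ht.1
      linarith
    have h3 : 0 ≤ 1 / 2 * (B * ε * y t ^ 2) := by positivity
    exact mul_le_mul h1 h2 (Real.exp_pos _).le (h3.trans h1)
  -- first part
  have hpart1 : -(20 * ε / B ^ 2) + 3 / 8 * ε / B * (1 - (1 + B / 2) * Real.exp (-(B / 2)))
      ≤ Z c := by
    have h1 := mono_of_rd (f := fun t => Z t + 3 / 8 * ε / B * ((1 + B * φ t) *
        Real.exp (-(B * φ t))))
      (f' := fun t => Z' t + 3 / 8 * ε / B * ((B * y t) * Real.exp (-(B * φ t)) +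
        (1 + B * φ t) * (Real.exp (-(B * φ t)) * (-(B * y t))))) (a := 0) (b := c)
      ((cZ.mono (Icc_subset_Icc_right hcI.2)).add (continuousOn_const.mul
        ((continuousOn_const.add (continuousOn_const.mul
          (h.cφ.mono (Icc_subset_Icc_right hcI.2)))).mul
          (ContinuousOn.rexp ((continuousOn_const.mul
            (h.cφ.mono (Icc_subset_Icc_right hcI.2))).neg)))))
      (fun t ht => by
        have ht1 : t ∈ Ico 0 s1 := ⟨ht.1, ht.2.trans_le hcI.2⟩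
        have h2 := ((h.dφ t ht1).const_mul B)
        exact (dZ t ht1).fun_add (((h2.const_add 1).fun_mul h2.fun_neg.exp).const_mul _))
      (fun t ht => by
        have ht1 : t ∈ Ico 0 s1 := ⟨ht.1, ht.2.trans_le hcI.2⟩
        have ht2 : t ∈ Icc 0 s1 := ⟨ht1.1, ht1.2.le⟩
        have h3 := hZ' t ht1
        have h4 : φ t ≤ 1 / 2 := by
          rw [← hcφ]; exact h.φmono t ht2 c ⟨ht.2.le, hcI.2⟩
        have h5 := h.yφ t ht2 h4
        have h6 := h.ypos t ht1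
        have h7 := h.φnonneg t ht2
        have e : 3 / 8 * ε / B * ((B * y t) * Real.exp (-(B * φ t)) +
          (1 + B * φ t) * (Real.exp (-(B * φ t)) * (-(B * y t)))) =
          -(3 / 8 * ε * B * φ t * y t * Real.exp (-(B * φ t))) := by
          field_simp
          ring
        rw [e]
        have h8 : 3 / 8 * ε * B * φ t * y t ≤ 1 / 2 * (B * ε * y t ^ 2) := by
          have h9 : 3 / 4 * φ t ≤ y t := by linarith [h.hθ]
          have h10 : 0 ≤ B * ε * y t := by positivity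
          nlinarith [mul_le_mul_of_nonneg_left h9 h10]
        have h11 := mul_le_mul_of_nonneg_right h8 (Real.exp_pos (-(B * φ t))).le
        linarith) c ⟨hcI.1, le_rfl⟩
    have hZ0 : Z 0 = z 0 := by simp [Z, h.φ0]
    simp only [hZ0, h.φ0, hcφ, mul_zero, add_zero, neg_zero, Real.exp_zero, mul_one] at h1
    have e2 : B * (1 / 2) = B / 2 := by ring
    rw [e2] at h1
    linarith
  have hpart2 : Z c ≤ Z s := by
    exact mono_of_rd (a := c) (b := s) (cZ.mono (Icc_subset_Icc hcI.1 hs.2))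
      (fun t ht => dZ t ⟨hcI.1.trans ht.1, ht.2.trans_le hs.2⟩)
      (fun t ht => le_trans (by positivity) (hZ' t ⟨hcI.1.trans ht.1, ht.2.trans_le hs.2⟩))
      s ⟨hc.2, le_rfl⟩
  have hexp : (1 + B / 2) * Real.exp (-(B / 2)) ≤ 1 / 100 := by
    have h1 := Real.quadratic_le_exp_of_nonneg (x := B / 2) (by linarith)
    rw [Real.exp_neg, ← div_eq_mul_inv, div_le_iff₀ (Real.exp_pos _)]
    nlinarith
  have hBpos : 0 < B := by linarith
  have h7 : 35 / 100 * (ε / B) ≤ Z s := by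
    refine le_trans ?_ (hpart1.trans hpart2)
    have e1 : 20 * ε / B ^ 2 = (ε / B) * (20 / B) := by field_simp
    have e2 : 20 / B ≤ 20 / 1024 := by gcongr
    have e3 : 0 < ε / B := by positivity
    have e4 : 3 / 8 * ε / B * (1 - (1 + B / 2) * Real.exp (-(B / 2))) =
      (ε / B) * (3 / 8 * (1 - (1 + B / 2) * Real.exp (-(B / 2)))) := by ring
    rw [e1, e4]
    nlinarith
  have h8 : Real.exp (-(1 / 1000)) ≤ Real.exp (-(ν * s)) := by
    apply Real.exp_le_exp.2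
    have : ν * s ≤ ν * b := mul_le_mul_of_nonneg_left (hs.2.trans h.hs1) hν
    linarith
  have h9 : (999 : ℝ) / 1000 ≤ Real.exp (-(1 / 1000)) := by
    have := Real.add_one_le_exp (-(1 / 1000) : ℝ)
    linarith
  have e5 : z s = Z s * (Real.exp (B * φ s) * Real.exp (-(ν * s))) := by
    simp only [Z]
    rw [mul_assoc, ← Real.exp_add, ← Real.exp_add]
    have : -(B * φ s) + ν * s + (B * φ s + -(ν * s)) = 0 := by ring
    rw [this]
    simp
  rw [e5]
  have hE := Real.exp_pos (B * φ s)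
  have e3 : 0 < ε / B := by positivity
  calc 1 / 3 * (ε / B) * Real.exp (B * φ s)
      ≤ (35 / 100 * (ε / B)) * (Real.exp (B * φ s) * (999 / 1000)) := by
        have : 0 < (ε / B) * Real.exp (B * φ s) := by positivity
        nlinarith
    _ ≤ Z s * (Real.exp (B * φ s) * Real.exp (-(ν * s))) := by
        apply mul_le_mul h7 _ (by positivity) (le_trans (by positivity) h7)
        exact mul_le_mul_of_nonneg_left (h9.trans h8) hE.le

end Pool.Agent.H42.Mix
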