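import Pool.Agent.H42.Mix.Step

/-!
Non-existence of regular solutions of the mixed dyadic system for large data.
-/

open Set Filter Topology

namespace Pool.Agent.H42.Mix

/-- what shell `n` gains from shell `n - 1` -/
def gain (α β B : ℝ) (x : ℕ → ℝ) : ℕ → ℝ
  | 0 => 0
  | m + 1 => B ^ m * x m * (α * x m + β * x (m + 1))

/-- `X` solves the dyadic system on `[0, T]` -/
def IsSol (α β B D ν T : ℝ) (X : ℕ → ℝ → ℝ) : Prop :=
  ∀ n, ∀ t ∈ Icc 0 T, HasDerivWithinAt (X n)
    (gain α β B (fun k => X k t) n - ν * D ^ n * X n t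
      - B ^ n * X (n + 1) t * (α * X n t + β * X (n + 1) t)) (Icc 0 T) t

/-- the solutions considered: `|X n t| ≤ M r ^ n` with `B r ^ 3 < 1` -/
def Reg (B T : ℝ) (X : ℕ → ℝ → ℝ) : Prop :=
  ∃ M r : ℝ, 0 ≤ r ∧ B * r ^ 3 < 1 ∧ ∀ n, ∀ t ∈ Icc 0 T, |X n t| ≤ M * r ^ n

theorem blowup (α β B D ν T : ℝ) (hB : 1024 ≤ B) (hD : 0 < D) (hD' : D ≤ 7 / 10 * B)
    (hβ : 0 < β) (h1 : Real.exp (-(2 * B)) * β ≤ α) (h2 : α ≤ Real.exp (-B) * β)
    (hν : 0 ≤ ν) (hT : 0 < T) :
    ∃ A₀ : ℝ, 0 < A₀ ∧ ∀ A, A₀ ≤ A → ¬ ∃ X : ℕ → ℝ → ℝ, IsSol α β B D ν T X ∧ Reg B T X ∧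
      X 0 0 = A ∧ X 1 0 = A / B ^ 2 ∧ ∀ n, 2 ≤ n → X n 0 = 0 := by
  set b := Real.sqrt B with hb
  have hbB : b ^ 2 = B := Real.sq_sqrt (by linarith)
  have hb32 : 32 ≤ b := by
    rw [hb]
    apply Real.le_sqrt_of_sq_le
    linarith
  have hb0 : 0 < b := by linarith
  refine ⟨2 * b / (β * T) + 1000 * (ν * (1 + D) ^ 2 * b) / β, by positivity, ?_⟩
  rintro A hA ⟨X, hX, ⟨M, r, hr, hr', hreg⟩, hX0, hX1, hX2⟩
  have hA0 : 0 < A := lt_of_lt_of_le (by positivity) hA
  have hβA : 0 < β * A := by positivity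
  have hA1 : 2 * b ≤ β * A * T := by
    have : 2 * b / (β * T) ≤ A := le_trans (by
      have : 0 ≤ 1000 * (ν * (1 + D) ^ 2 * b) / β := by positivity
      linarith) hA
    rw [div_le_iff₀ (by positivity)] at this
    linarith
  have hA2 : 1000 * (ν * (1 + D) ^ 2 * b) ≤ β * A := by
    have : 1000 * (ν * (1 + D) ^ 2 * b) / β ≤ A := le_trans (by
      have : 0 ≤ 2 * b / (β * T) := by positivity
      linarith) hA
    rw [div_le_iff₀ hβ] at this
    linarith
  have hright : ∀ n, ∀ t ∈ Ico 0 T, RD (X n) (gain α β B (fun k => X k t) n - ν * D ^ n * X n t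
      - B ^ n * X (n + 1) t * (α * X n t + β * X (n + 1) t)) t := by
    intro n t ht
    exact (hX n t ⟨ht.1, ht.2.le⟩).mono_of_mem_nhdsWithin (Icc_mem_nhdsGE_of_mem ht)
  have hcont : ∀ n, ContinuousOn (X n) (Icc 0 T) := fun n t ht => (hX n t ht).continuousWithinAt
  have hS : 0 < β * A * T := by positivity
  have hmem : ∀ s ∈ Ico 0 (β * A * T), s / (β * A) ∈ Ico 0 T := by
    intro s hs
    refine ⟨div_nonneg hs.1 hβA.le, ?_⟩
    rw [div_lt_iff₀ hβA]
    linarith [hs.2]
  have hmem2 : MapsTo (fun s => s / (β * A)) (Icc 0 (β * A * T)) (Icc 0 T) := by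
    intro s hs
    refine ⟨div_nonneg hs.1 hβA.le, ?_⟩
    show s / (β * A) ≤ T
    rw [div_le_iff₀ hβA]
    linarith [hs.2]
  have hder : ∀ (f : ℝ → ℝ) (v s : ℝ), RD f v (s / (β * A)) →
      RD (fun s => f (s / (β * A)) / A) (v * (1 / (β * A)) / A) s := by
    intro f v s hf
    have h1 : HasDerivWithinAt (fun s => s / (β * A)) (1 / (β * A)) (Ici s) s := by
      simpa using ((hasDerivAt_id' s).div_const (β * A)).hasDerivWithinAt
    have h2 : MapsTo (fun s => s / (β * A)) (Ici s) (Ici (s / (β * A))) := by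
      intro t ht
      simp only [mem_Ici] at ht ⊢
      gcongr
    exact (HasDerivWithinAt.comp s hf h1 h2).div_const A
  set ε := α / β with hε
  have hε1 : Real.exp (-(2 * b ^ 2)) ≤ ε := by
    rw [hε, le_div_iff₀ hβ, hbB]
    exact h1
  have hε2 : ε ≤ Real.exp (-(b ^ 2)) := by
    rw [hε, div_le_iff₀ hβ, hbB]
    exact h2
  have hεpos : 0 < ε := (Real.exp_pos _).trans_le hε1
  have hP : Par ε b D r := ⟨hb32, hε1, hε2, hD, by rw [hbB]; exact hD', hr, by rw [hbB]; exact hr'⟩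
  have hαβ : α = ε * β := by rw [hε]; field_simp
  have hst : Start ε b D (ν / (β * A)) (M / A) r (β * A * T) (fun _ => 0)
      (fun j s => X j (s / (β * A)) / A) := by
    refine ⟨⟨?_, ?_, ?_⟩, hA1, ?_, ?_, ?_, ?_, ?_⟩
    · intro j
      apply ContinuousOn.div_const
      exact (hcont j).comp (by fun_prop) hmem2
    · intro s hs
      refine (hder _ _ s (hright 0 _ (hmem s hs))).congr_deriv ?_
      simp only [gain, hαβ]
      field_simp
      ring
    · intro j s hs
      refine (hder _ _ s (hright (j + 1) _ (hmem s hs))).congr_deriv ?_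
      simp only [gain, hαβ, hbB]
      field_simp
    · intro s _
      rw [abs_zero]
      norm_num
    · simp only [zero_div, hX0]
      exact div_self hA0.ne'
    · simp only [zero_div, hX1]
      rw [← hbB]
      field_simp
    · intro m hm N
      have : ∑ k ∈ Finset.range (N + 1), (X (m + k) (0 / (β * A)) / A) ^ 2 = 0 := by
        apply Finset.sum_eq_zero
        intro k _
        rw [zero_div, hX2 (m + k) (by omega)]
        simp
      rw [this]
      positivity
    · intro j s hs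
      rw [abs_div, abs_of_pos hA0]
      calc |X j (s / (β * A))| / A ≤ M * r ^ j / A := by
            gcongr
            exact hreg j _ (hmem2 hs)
        _ = M / A * r ^ j := by ring
  refine hst.false hP (by positivity) ?_
  have : ν / (β * A) * (1 + D) ^ 2 * b = (ν * (1 + D) ^ 2 * b) / (β * A) := by ring
  rw [this, div_le_div_iff₀ hβA (by norm_num)]
  linarith

end Pool.Agent.H42.Mix
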