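import Pool.Agent.H42.Mix.Core

/-!
Renormalised systems and one stage of the cascade.
-/

open Set Filter Topology

namespace Pool.Agent.H42.Mix

/-- A (renormalised) mixed dyadic system on the time interval `[0, S]` with external mode `p`. -/
structure Sys (ε B D μ S : ℝ) (p : ℝ → ℝ) (Y : ℕ → ℝ → ℝ) : Prop where
  cont : ∀ j, ContinuousOn (Y j) (Icc 0 S)
  d0 : ∀ s ∈ Ico 0 S, RD (Y 0) (B⁻¹ * p s * (ε * p s + Y 0 s) - μ * Y 0 s
    - Y 1 s * (ε * Y 0 s + Y 1 s)) s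
  dn : ∀ j, ∀ s ∈ Ico 0 S, RD (Y (j + 1)) (B ^ j * Y j s * (ε * Y j s + Y (j + 1) s)
    - μ * D ^ (j + 1) * Y (j + 1) s
    - B ^ (j + 1) * Y (j + 2) s * (ε * Y (j + 1) s + Y (j + 2) s)) s

/-- the starting position of a stage -/
structure Start (ε b D μ M r S : ℝ) (p : ℝ → ℝ) (Y : ℕ → ℝ → ℝ) : Prop where
  sys : Sys ε (b ^ 2) D μ S p Y
  hS : 2 * b ≤ S
  hp : ∀ s ∈ Icc 0 (2 * b), |p s| ≤ 8 / 5
  y0 : Y 0 0 = 1
  y1 : Y 1 0 = (b ^ 4)⁻¹
  tail : ∀ m, 2 ≤ m → ∀ N, ∑ k ∈ Finset.range (N + 1), Y (m + k) 0 ^ 2 ≤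
    (20 * ε / (b ^ 2) ^ m) ^ 2
  reg : ∀ j, ∀ s ∈ Icc 0 S, |Y j s| ≤ M * r ^ j

/-- the global parameters -/
structure Par (ε b D r : ℝ) : Prop where
  hb : 32 ≤ b
  hε1 : Real.exp (-(2 * b ^ 2)) ≤ ε
  hε2 : ε ≤ Real.exp (-(b ^ 2))
  hD : 0 < D
  hD' : D ≤ 7 / 10 * b ^ 2
  hr : 0 ≤ r
  hr' : b ^ 2 * r ^ 3 < 1

variable {ε b D r μ M S : ℝ} {p : ℝ → ℝ} {Y : ℕ → ℝ → ℝ}

lemma Par.hε (h : Par ε b D r) : 0 < ε := (Real.exp_pos _).trans_le h.hε1

lemma Par.hε8 (h : Par ε b D r) : ε * b ^ 8 ≤ 1 / 100 := by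
  have hb := h.hb
  have h1 := h.hε2
  have h2 : b ^ 10 / 120 ≤ Real.exp (b ^ 2) := by
    have := Real.pow_div_factorial_le_exp (b ^ 2) (by positivity) 5
    norm_num [Nat.factorial] at this
    calc b ^ 10 / 120 = (b ^ 2) ^ 5 / 120 := by ring
      _ ≤ _ := this
  have h4 : (32 : ℝ) ^ 2 * b ^ 8 ≤ b ^ 10 := by
    have : (32 : ℝ) ^ 2 ≤ b ^ 2 := pow_le_pow_left₀ (by norm_num) hb 2
    calc (32 : ℝ) ^ 2 * b ^ 8 ≤ b ^ 2 * b ^ 8 := by gcongr
      _ = b ^ 10 := by ring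
  have h2' : b ^ 12 / 720 ≤ Real.exp (b ^ 2) := by
    have := Real.pow_div_factorial_le_exp (b ^ 2) (by positivity) 6
    norm_num [Nat.factorial] at this
    calc b ^ 12 / 720 = (b ^ 2) ^ 6 / 720 := by ring
      _ ≤ _ := this
  have h4' : (32 : ℝ) ^ 4 * b ^ 8 ≤ b ^ 12 := by
    have : (32 : ℝ) ^ 4 ≤ b ^ 4 := pow_le_pow_left₀ (by norm_num) hb 4
    calc (32 : ℝ) ^ 4 * b ^ 8 ≤ b ^ 4 * b ^ 8 := by gcongr
      _ = b ^ 12 := by ring
  have h3 : 100 * b ^ 8 ≤ Real.exp (b ^ 2) := by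
    have : 0 < b ^ 8 := by positivity
    nlinarith
  calc ε * b ^ 8 ≤ Real.exp (-(b ^ 2)) * b ^ 8 := by gcongr
    _ = b ^ 8 / Real.exp (b ^ 2) := by rw [Real.exp_neg]; field_simp
    _ ≤ 1 / 100 := by
      rw [div_le_div_iff₀ (Real.exp_pos _) (by norm_num)]
      linarith

/-- flux at infinity vanishes -/
lemma flux_small {r M : ℝ} (hr : 0 ≤ r) (hr' : b ^ 2 * r ^ 3 < 1) (hε : 0 ≤ ε)
    {a c : ℝ} (m : ℕ) (hreg : ∀ j, ∀ s ∈ Ico a c, |Y j s| ≤ M * r ^ j) :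
    ∀ η : ℝ, 0 < η → ∃ N₀ : ℕ, ∀ N, N₀ ≤ N → ∀ s ∈ Ico a c,
      |(b ^ 2) ^ (m + N) * Y (m + N) s * Y (m + (N + 1)) s *
        (ε * Y (m + N) s + Y (m + (N + 1)) s)| ≤ η := by
  intro η hη
  have hlim : Tendsto (fun N : ℕ => (|M| ^ 3 * r * (ε + r)) * (b ^ 2 * r ^ 3) ^ (m + N)) atTop
      (𝓝 ((|M| ^ 3 * r * (ε + r)) * 0)) := by
    apply Tendsto.const_mul
    have h1 := tendsto_pow_atTop_nhds_zero_of_lt_one (r := b ^ 2 * r ^ 3) (by positivity) hr'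
    exact h1.comp (tendsto_atTop_mono (fun n => Nat.le_add_left n m) tendsto_id)
  rw [mul_zero] at hlim
  obtain ⟨N₀, hN₀⟩ := (hlim.eventually_le_const hη).exists_forall_of_atTop
  refine ⟨N₀, fun N hN s hs => le_trans ?_ (hN₀ N hN)⟩
  have h1 : |Y (m + N) s| ≤ |M| * r ^ (m + N) := (hreg _ s hs).trans (by
    gcongr; exact le_abs_self M)
  have h2 : |Y (m + (N + 1)) s| ≤ |M| * r ^ (m + N) * r := (hreg _ s hs).trans (by
    have : M * r ^ (m + (N + 1)) = M * (r ^ (m + N) * r) := by rw [← add_assoc, pow_succ]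
    rw [this, mul_assoc]
    gcongr
    exact le_abs_self M)
  rw [abs_mul, abs_mul, abs_mul, abs_of_nonneg (show (0 : ℝ) ≤ (b ^ 2) ^ (m + N) by positivity)]
  have h3 : |ε * Y (m + N) s + Y (m + (N + 1)) s| ≤ |M| * r ^ (m + N) * (ε + r) := by
    refine (abs_add_le _ _).trans ?_
    rw [abs_mul, abs_of_nonneg hε]
    calc ε * |Y (m + N) s| + |Y (m + (N + 1)) s| ≤
        ε * (|M| * r ^ (m + N)) + |M| * r ^ (m + N) * r := by gcongr
      _ = _ := by ring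
  calc (b ^ 2) ^ (m + N) * |Y (m + N) s| * |Y (m + (N + 1)) s| *
        |ε * Y (m + N) s + Y (m + (N + 1)) s|
      ≤ (b ^ 2) ^ (m + N) * (|M| * r ^ (m + N)) * (|M| * r ^ (m + N) * r) *
        (|M| * r ^ (m + N) * (ε + r)) := by gcongr
    _ = (|M| ^ 3 * r * (ε + r)) * (b ^ 2 * r ^ 3) ^ (m + N) := by
      rw [mul_pow]; ring

lemma Sys.chain0 (h : Sys ε (b ^ 2) D μ S p Y) {s1 : ℝ} (hs1 : s1 ≤ S) :
    Chain ε (fun k => (b ^ 2) ^ k) (fun k => μ * D ^ k)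
      (fun s => (b ^ 2)⁻¹ * p s * (ε * p s + Y 0 s)) Y 0 s1 where
  cont k := (h.cont k).mono (Icc_subset_Icc_right hs1)
  d0 s hs := by
    have := h.d0 s ⟨hs.1, hs.2.trans_le hs1⟩
    simpa using this
  dn k s hs := h.dn k s ⟨hs.1, hs.2.trans_le hs1⟩

lemma Sys.chain (h : Sys ε (b ^ 2) D μ S p Y) {s1 : ℝ} (hs1 : s1 ≤ S) (m : ℕ) :
    Chain ε (fun k => (b ^ 2) ^ (m + 1 + k)) (fun k => μ * D ^ (m + 1 + k))
      (fun s => (b ^ 2) ^ m * Y m s * (ε * Y m s + Y (m + 1) s))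
      (fun k => Y (m + 1 + k)) 0 s1 where
  cont k := (h.cont _).mono (Icc_subset_Icc_right hs1)
  d0 s hs := h.dn m s ⟨hs.1, hs.2.trans_le hs1⟩
  dn k s hs := h.dn (m + 1 + k) s ⟨hs.1, hs.2.trans_le hs1⟩

/-- the bound of all modes during two stage lengths -/
lemma Start.energy (h : Start ε b D μ M r S p Y) (hP : Par ε b D r) (hμ : 0 ≤ μ) :
    ∀ j, ∀ s ∈ Icc 0 (2 * b), |Y j s| ≤ 111 / 100 := by
  intro j s hs
  have hb := hP.hb
  have hε := hP.hε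
  have hε8 := hP.hε8
  have hεs : ε ≤ 1 / 100000000 := by
    have : (32 : ℝ) ^ 8 ≤ b ^ 8 := pow_le_pow_left₀ (by norm_num) hb 8
    norm_num at this
    nlinarith
  have hB0 : (0 : ℝ) < (b ^ 2)⁻¹ := by positivity
  have h1 := (h.sys.chain0 h.hS).tail (Q := 8 / 5) (F := 1 + 1 / 100000) (r := (b ^ 2)⁻¹) (q := p)
    (Φ := fun s => (b ^ 2)⁻¹ * (8 / 5) * s) (Φ' := fun _ => (b ^ 2)⁻¹ * (8 / 5)) hε.le
    (fun k => mul_nonneg hμ (pow_nonneg hP.hD.le _)) hB0.le (by norm_num) (by norm_num)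
    (fun s _ => rfl) (fun s hs => h.hp s ⟨hs.1, hs.2.le⟩) (by fun_prop)
    (fun s _ => by
      simpa using ((hasDerivAt_id' s).const_mul ((b ^ 2)⁻¹ * (8 / 5))).hasDerivWithinAt)
    (fun s hs => by
      have := h.hp s ⟨hs.1, hs.2.le⟩
      gcongr)
    (by
      have := flux_small (Y := Y) (a := 0) (c := 2 * b) (M := M) hP.hr hP.hr'
        hε.le 0 (fun j s hs => h.reg j s ⟨hs.1, hs.2.le.trans h.hS⟩)
      simpa using this)
    (by
      intro N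
      have h2 := h.tail 2 le_rfl
      have e1 : (20 * ε / (b ^ 2) ^ 2) ^ 2 ≤ 1 / 1000000 := by
        have hx : 20 * ε / (b ^ 2) ^ 2 ≤ 1 / 1000 := by
          rw [div_le_iff₀ (by positivity)]
          have : (1 : ℝ) ≤ (b ^ 2) ^ 2 := one_le_pow₀ (one_le_pow₀ (by linarith))
          nlinarith
        calc (20 * ε / (b ^ 2) ^ 2) ^ 2 ≤ (1 / 1000) ^ 2 := by
              apply pow_le_pow_left₀ (by positivity) hx
          _ = 1 / 1000000 := by norm_num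
      have e2 : Y 1 0 ^ 2 ≤ 1 / 1000000 := by
        rw [h.y1]
        have hx : (b ^ 4)⁻¹ ≤ 1 / 1000 := by
          rw [inv_eq_one_div, div_le_div_iff₀ (by positivity) (by norm_num)]
          have := pow_le_pow_left₀ (by norm_num) hb 4
          norm_num at this ⊢
          linarith
        calc ((b ^ 4)⁻¹) ^ 2 ≤ (1 / 1000) ^ 2 := by
              apply pow_le_pow_left₀ (by positivity) hx
          _ = 1 / 1000000 := by norm_num
      have e3 : ∑ k ∈ Finset.range (N + 1), Y k 0 ^ 2 ≤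
          ∑ k ∈ Finset.range (N + 1 + 2), Y k 0 ^ 2 :=
        Finset.sum_le_sum_of_subset_of_nonneg (fun k hk => by
          simp only [Finset.mem_range] at hk ⊢; omega) (fun k _ _ => sq_nonneg _)
      refine e3.trans ?_
      rw [Finset.sum_range_succ' _ (N + 1 + 1), Finset.sum_range_succ' _ (N + 1)]
      have e4 := h2 N
      have e5 : ∑ k ∈ Finset.range (N + 1), Y (k + 1 + 1) 0 ^ 2 =
          ∑ k ∈ Finset.range (N + 1), Y (2 + k) 0 ^ 2 := by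
        apply Finset.sum_congr rfl
        intro k _
        rw [show k + 1 + 1 = 2 + k by omega]
      rw [e5, h.y0, zero_add]
      norm_num
      linarith)
  have h2 : ∀ N, ∑ k ∈ Finset.range (N + 1), Y k s ^ 2 ≤ (111 / 100 : ℝ) ^ 2 := by
    intro N
    refine (h1 N s hs).trans ?_
    apply pow_le_pow_left₀ (by positivity)
    have e1 : (b ^ 2)⁻¹ * (8 / 5) * s - (b ^ 2)⁻¹ * (8 / 5) * 0 ≤ 1 / 20 + 1 / 20 := by
      have : (b ^ 2)⁻¹ * (8 / 5) * s ≤ (b ^ 2)⁻¹ * (8 / 5) * (2 * b) := by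
        gcongr; exact hs.2
      have e2 : (b ^ 2)⁻¹ * (8 / 5) * (2 * b) = 16 / 5 / b := by field_simp; ring
      have e3 : 16 / 5 / b ≤ 16 / 5 / 32 := by gcongr
      norm_num at e3 ⊢
      linarith
    have e2 : Real.exp (1 / 20 + 1 / 20) ≤ 1108034 / 1000000 := by
      rw [Real.exp_add]
      have := Real.exp_bound_div_one_sub_of_interval (x := 1 / 20) (by norm_num) (by norm_num)
      norm_num at this
      have h0 := Real.exp_pos (1 / 20)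
      nlinarith
    calc Real.exp ((b ^ 2)⁻¹ * (8 / 5) * s - (b ^ 2)⁻¹ * (8 / 5) * 0) *
          (1 + 1 / 100000 + ε * (8 / 5))
        ≤ (1108034 / 1000000) * (1 + 1 / 100000 + (1 / 100000000) * (8 / 5)) := by
          gcongr
          exact (Real.exp_le_exp.2 e1).trans e2
      _ ≤ 111 / 100 := by norm_num
  exact tail_abs (by norm_num) h2 j

end Pool.Agent.H42.Mix
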