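import Pool.Agent.H42.Mix.Window

/-!
One stage of the cascade produces, after renormalisation, the starting position of the next stage.
-/

open Set Filter Topology

namespace Pool.Agent.H42.Mix

variable {ε b D r μ M S : ℝ} {p : ℝ → ℝ} {Y : ℕ → ℝ → ℝ}

lemma exp_big (hb : 32 ≤ b) : 112 / 100 * b ^ 8 < Real.exp (3 / 100 * b ^ 2) := by
  have h1 : (2718 / 1000 : ℝ) ^ 30 ≤ Real.exp 30 := by
    have : Real.exp 30 = Real.exp 1 ^ 30 := by rw [← Real.exp_nat_mul]; norm_num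
    rw [this]
    apply pow_le_pow_left₀ (by norm_num)
    have := Real.exp_one_gt_d9
    linarith
  have h3 : (1 + (b - 32) / 32) ≤ Real.exp ((b - 32) / 32) := by
    have := Real.add_one_le_exp ((b - 32) / 32)
    linarith
  have h4 : (1 + (b - 32) / 32) ^ 8 ≤ Real.exp ((b - 32) / 4) := by
    calc (1 + (b - 32) / 32) ^ 8 ≤ Real.exp ((b - 32) / 32) ^ 8 := by
          apply pow_le_pow_left₀ _ h3
          have : 0 ≤ (b - 32) / 32 := by linarith
          linarith
      _ = Real.exp (8 * ((b - 32) / 32)) := by rw [← Real.exp_nat_mul]; norm_num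
      _ = _ := by congr 1; ring
  have e : b ^ 8 = 2 ^ 40 * (1 + (b - 32) / 32) ^ 8 := by ring
  have h5 : Real.exp 30 * Real.exp ((b - 32) / 4) ≤ Real.exp (3 / 100 * b ^ 2) := by
    rw [← Real.exp_add]
    apply Real.exp_le_exp.2
    nlinarith
  have h6 : 0 < Real.exp ((b - 32) / 4) := Real.exp_pos _
  calc 112 / 100 * b ^ 8 = (112 / 100 * 2 ^ 40) * (1 + (b - 32) / 32) ^ 8 := by rw [e]; ring
    _ ≤ (112 / 100 * 2 ^ 40) * Real.exp ((b - 32) / 4) := by gcongr
    _ < (2718 / 1000 : ℝ) ^ 30 * Real.exp ((b - 32) / 4) := by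
        apply mul_lt_mul_of_pos_right _ h6
        norm_num
    _ ≤ Real.exp 30 * Real.exp ((b - 32) / 4) := by gcongr
    _ ≤ _ := h5

lemma trig_window {t : ℝ} (h1 : 97 / 100 ≤ t) (h2 : t ≤ 2) :
    7 / 10 ≤ 94 / 100 * Real.sin t - 601 / 10000 * |Real.cos t| := by
  have hpi := Real.pi_gt_d4
  have hpi' := Real.pi_lt_d4
  have hs : Real.sin t = Real.cos (Real.pi / 2 - t) := (Real.cos_pi_div_two_sub t).symm
  have hc : Real.cos t = Real.sin (Real.pi / 2 - t) := (Real.sin_pi_div_two_sub t).symm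
  have ha : |Real.pi / 2 - t| ≤ 601 / 1000 := by
    rw [abs_le]
    constructor <;> linarith
  have h3 : |Real.cos t| ≤ 601 / 1000 := by
    rw [hc]
    exact Real.abs_sin_le_abs.trans ha
  have h4 : 819 / 1000 ≤ Real.sin t := by
    rw [hs]
    have h5 := Real.one_sub_sq_div_two_le_cos (x := Real.pi / 2 - t)
    have h6 : (Real.pi / 2 - t) ^ 2 ≤ (601 / 1000) ^ 2 := by
      rw [← sq_abs]
      exact pow_le_pow_left₀ (abs_nonneg _) ha 2
    norm_num at h6
    linarith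
  linarith

/-- the renormalised system -/
lemma Sys.renorm {B : ℝ} (h : Sys ε B D μ S p Y) {c a : ℝ} (hB : 0 < B) (ha : 0 < a)
    (hc : 0 ≤ c) :
    Sys ε B D (μ * D / (B * a)) (B * a * (S - c)) (fun s => Y 0 (c + s / (B * a)) / a)
      (fun j s => Y (j + 1) (c + s / (B * a)) / a) := by
  have hBa : 0 < B * a := mul_pos hB ha
  have hmem : ∀ s ∈ Ico 0 (B * a * (S - c)), c + s / (B * a) ∈ Ico 0 S := by
    intro s hs
    refine ⟨add_nonneg hc (div_nonneg hs.1 hBa.le), ?_⟩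
    have : s / (B * a) < S - c := by
      rw [div_lt_iff₀ hBa]
      linarith [hs.2]
    linarith
  have hmem2 : MapsTo (fun s => c + s / (B * a)) (Icc 0 (B * a * (S - c))) (Icc 0 S) := by
    intro s hs
    refine ⟨add_nonneg hc (div_nonneg hs.1 hBa.le), ?_⟩
    have : s / (B * a) ≤ S - c := by
      rw [div_le_iff₀ hBa]
      linarith [hs.2]
    show c + s / (B * a) ≤ S
    linarith
  have hder : ∀ (f : ℝ → ℝ) (v s : ℝ), RD f v (c + s / (B * a)) →
      RD (fun s => f (c + s / (B * a)) / a) (v * (1 / (B * a)) / a) s := by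
    intro f v s hf
    have h1 : HasDerivWithinAt (fun s => c + s / (B * a)) (1 / (B * a)) (Ici s) s := by
      simpa using (((hasDerivAt_id' s).div_const (B * a)).const_add c).hasDerivWithinAt
    have h2 : MapsTo (fun s => c + s / (B * a)) (Ici s) (Ici (c + s / (B * a))) := by
      intro t ht
      simp only [mem_Ici] at ht ⊢
      gcongr
    exact (HasDerivWithinAt.comp s hf h1 h2).div_const a
  refine ⟨?_, ?_, ?_⟩
  · intro j
    apply ContinuousOn.div_const
    exact (h.cont (j + 1)).comp (by fun_prop) hmem2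
  · intro s hs
    refine (hder _ _ s (h.dn 0 _ (hmem s hs))).congr_deriv ?_
    simp only [zero_add, pow_zero, pow_one]
    field_simp
  · intro j s hs
    refine (hder _ _ s (h.dn (j + 1) _ (hmem s hs))).congr_deriv ?_
    rw [pow_succ B (j + 1), pow_succ D (j + 1)]
    field_simp
    ring

theorem Start.step (h : Start ε b D μ M r S p Y) (hP : Par ε b D r) (hμ : 0 ≤ μ)
    (hμ' : μ * (1 + D) ^ 2 * b ≤ 1 / 1000) :
    ∃ (μ' S' : ℝ) (p' : ℝ → ℝ) (Y' : ℕ → ℝ → ℝ),
      Start ε b D μ' (M * (r / (7 / 10))) r S' p' Y' ∧ 0 ≤ μ' ∧ μ' ≤ μ := by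
  have hb := hP.hb
  have hε := hP.hε
  have hS0 : 0 ≤ S := by linarith [h.hS]
  have hbS : b ≤ S := by linarith [h.hS]
  obtain ⟨φ, cφ, φ0, dφ⟩ := exists_antideriv hS0 (h.sys.cont 1)
  have hθ0 : (0 : ℝ) < (b ^ 4)⁻¹ := by positivity
  set A : Set ℝ := {s | s ∈ Icc 0 b ∧ ((b ^ 4)⁻¹ * Y 1 s ≤ |Y 2 s| ∨ 2 ≤ φ s)} with hA
  have c1 : ContinuousOn (Y 1) (Icc 0 b) := (h.sys.cont 1).mono (Icc_subset_Icc_right hbS)
  have c2 : ContinuousOn (Y 2) (Icc 0 b) := (h.sys.cont 2).mono (Icc_subset_Icc_right hbS)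
  have hAc : IsCompact A := by
    have h1 : A = (Icc 0 b ∩ {s | (b ^ 4)⁻¹ * Y 1 s ≤ |Y 2 s|}) ∪ (Icc 0 b ∩ {s | 2 ≤ φ s}) := by
      ext s
      simp only [hA, mem_ofPred_eq, mem_union, mem_inter_iff]
      tauto
    rw [h1]
    apply IsCompact.union
    · apply isCompact_Icc.of_isClosed_subset _ inter_subset_left
      have h2 : ContinuousOn (fun s => |Y 2 s| - (b ^ 4)⁻¹ * Y 1 s) (Icc 0 b) :=
        c2.abs.sub (continuousOn_const.mul c1)
      have h3 := h2.preimage_isClosed_of_isClosed isClosed_Icc (isClosed_Ici (a := (0 : ℝ)))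
      convert h3 using 1
      ext s
      simp [sub_nonneg]
    · exact isCompact_Icc.inter_right (isClosed_Ici.preimage cφ)
  have hwin : ∀ s1, 0 < s1 → s1 ≤ b → (∀ s ∈ Ico 0 s1, s ∉ A) → Win ε b D μ M r S p Y φ s1 := by
    intro s1 h1 h2 h3
    refine ⟨h, hP, hμ, hμ', cφ, φ0, dφ, h1, h2, ?_, ?_⟩
    · intro s hs
      by_contra hc
      exact h3 s hs ⟨⟨hs.1, hs.2.le.trans h2⟩, Or.inl (not_lt.1 hc)⟩
    · intro s hs
      by_contra hc
      exact h3 s hs ⟨⟨hs.1, hs.2.le.trans h2⟩, Or.inr (not_lt.1 hc)⟩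
  have hAn : A.Nonempty := by
    by_contra hc
    rw [not_nonempty_iff_eq_empty] at hc
    have hw := hwin b (by linarith) le_rfl (by simp [hc])
    exact (lt_irrefl _ hw.rot.not_b)
  obtain ⟨c, hcA, hcmin⟩ := hAc.exists_isLeast hAn
  have hz0 : |Y 2 0| ≤ 20 * ε / (b ^ 2) ^ 2 := by
    simpa using tail_abs (V := fun k => Y (2 + k)) (by positivity) (h.tail 2 le_rfl) 0
  have hc0 : 0 < c := by
    rcases hcA.1.1.eq_or_lt with hc | hc
    · exfalso
      rcases hcA.2 with h1 | h1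
      · rw [← hc, h.y1] at h1
        have h2 := h1.trans hz0
        have h8 := hP.hε8
        have h4 : (32 : ℝ) ^ 4 ≤ b ^ 4 := pow_le_pow_left₀ (by norm_num) hb 4
        norm_num at h4
        have e : ε * b ^ 8 = (ε * b ^ 4) * b ^ 4 := by ring
        have e0 : 0 < ε * b ^ 4 := by positivity
        have h5 : (b ^ 4)⁻¹ * (b ^ 4)⁻¹ = 1 / b ^ 4 / b ^ 4 := by field_simp
        have h6 : 20 * ε / (b ^ 2) ^ 2 = 20 * ε / b ^ 4 := by rw [← pow_mul]
        rw [h5, h6, div_div, div_le_div_iff₀ (by positivity) (by positivity)] at h2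
        have h7 : 1 * b ^ 4 ≤ (20 * (ε * b ^ 4)) * b ^ 4 := by nlinarith
        have h9 := le_of_mul_le_mul_right h7 (by positivity)
        nlinarith
      · rw [← hc, φ0] at h1
        norm_num at h1
    · exact hc
  have hw : Win ε b D μ M r S p Y φ c := hwin c hc0 hcA.1.2 (fun s hs hsA =>
    absurd (hcmin hsA) (not_le.2 hs.2))
  have hr := hw.rot
  have hcI : c ∈ Icc 0 c := ⟨hc0.le, le_rfl⟩
  have hyθ := hr.yθ hc0 c hcI
  have hy0 : 0 < Y 1 c := hθ0.trans_le hyθ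
  have hyK := (le_abs_self _).trans (hw.bound 1 c hcI)
  have hF2 := hw.F2 c hcI
  have hφ2 := hr.φle hc0 c hcI
  -- angle lower bound
  have hφ97 : 97 / 100 ≤ φ c := by
    rcases hcA.2 with h1 | h1
    · by_contra hcon
      push Not at hcon
      have h2 : (b ^ 4)⁻¹ * (b ^ 4)⁻¹ ≤ 112 / 100 * ε * Real.exp (b ^ 2 * φ c) := by
        refine le_trans ?_ (h1.trans hF2)
        gcongr
      have h3 : ε * Real.exp (b ^ 2 * φ c) ≤ Real.exp (-(3 / 100 * b ^ 2)) := by
        calc ε * Real.exp (b ^ 2 * φ c) ≤ Real.exp (-(b ^ 2)) * Real.exp (b ^ 2 * (97 / 100)) := by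
              apply mul_le_mul hP.hε2 _ (Real.exp_pos _).le (Real.exp_pos _).le
              apply Real.exp_le_exp.2
              gcongr
          _ = Real.exp (-(3 / 100 * b ^ 2)) := by
              rw [← Real.exp_add]
              congr 1
              ring
      have h4 := exp_big hb
      have h5 : Real.exp (-(3 / 100 * b ^ 2)) * Real.exp (3 / 100 * b ^ 2) = 1 := by
        rw [← Real.exp_add]; simp
      have h6 : (b ^ 4)⁻¹ * (b ^ 4)⁻¹ * b ^ 8 = 1 := by field_simp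
      have h7 : 1 ≤ 112 / 100 * Real.exp (-(3 / 100 * b ^ 2)) * b ^ 8 := by
        rw [← h6]
        have : (b ^ 4)⁻¹ * (b ^ 4)⁻¹ ≤ 112 / 100 * Real.exp (-(3 / 100 * b ^ 2)) := by
          refine h2.trans ?_
          rw [mul_assoc]
          gcongr
        gcongr
      have h8 := Real.exp_pos (-(3 / 100 * b ^ 2))
      nlinarith
    · linarith
  have hzl := hw.zlow c hcI (by linarith)
  have hz0' : 0 < Y 2 c := by
    refine lt_of_lt_of_le ?_ hzl
    positivity
  -- continuity: |z| ≤ θ y at time c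
  have hzle : |Y 2 c| ≤ (b ^ 4)⁻¹ * Y 1 c := by
    have hne : (𝓝[Ico 0 c] c).NeBot := by
      apply mem_closure_iff_nhdsWithin_neBot.1
      rw [closure_Ico hc0.ne]
      exact ⟨hc0.le, le_rfl⟩
    have l1 : Tendsto (fun s => |Y 2 s|) (𝓝[Ico 0 c] c) (𝓝 |Y 2 c|) :=
      ((c2 c hcA.1).mono (fun s hs => ⟨hs.1, hs.2.le.trans hcA.1.2⟩)).abs
    have l2 : Tendsto (fun s => (b ^ 4)⁻¹ * Y 1 s) (𝓝[Ico 0 c] c) (𝓝 ((b ^ 4)⁻¹ * Y 1 c)) :=
      Tendsto.const_mul _ ((c1 c hcA.1).mono (fun s hs => ⟨hs.1, hs.2.le.trans hcA.1.2⟩))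
    exact le_of_tendsto_of_tendsto l1 l2
      (eventually_nhdsWithin_of_forall fun s hs => (hw.hz s hs).le)
  have hφlt : φ c < 2 := by
    have h1 : 1 / 3 * (ε / b ^ 2) * Real.exp (b ^ 2 * φ c) ≤ (b ^ 4)⁻¹ * (111 / 100) :=
      hzl.trans ((le_abs_self _).trans (hzle.trans (by gcongr)))
    have h2 : ε * Real.exp (b ^ 2 * φ c) < 1 := by
      have h3 : 1 / 3 * (ε / b ^ 2) * Real.exp (b ^ 2 * φ c) * (b ^ 4) ≤
          (b ^ 4)⁻¹ * (111 / 100) * b ^ 4 := by gcongr
      have e1 : (b ^ 4)⁻¹ * (111 / 100) * b ^ 4 = 111 / 100 := by field_simp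
      have e2 : 1 / 3 * (ε / b ^ 2) * Real.exp (b ^ 2 * φ c) * (b ^ 4) =
        1 / 3 * b ^ 2 * (ε * Real.exp (b ^ 2 * φ c)) := by field_simp
      rw [e1, e2] at h3
      have h4 : 0 < ε * Real.exp (b ^ 2 * φ c) := by positivity
      have h5 : (1024 : ℝ) ≤ b ^ 2 := by nlinarith
      nlinarith
    have h3 : Real.exp (-(2 * b ^ 2)) * Real.exp (b ^ 2 * φ c) < 1 :=
      lt_of_le_of_lt (mul_le_mul_of_nonneg_right hP.hε1 (Real.exp_pos _).le) h2
    rw [← Real.exp_add, Real.exp_lt_one_iff] at h3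
    have : 0 < b ^ 2 := by positivity
    nlinarith
  have hzeq : Y 2 c = (b ^ 4)⁻¹ * Y 1 c := by
    have h1 : |Y 2 c| = Y 2 c := abs_of_pos hz0'
    rcases hcA.2 with h2 | h2
    · rw [← h1]
      exact le_antisymm hzle h2
    · linarith
  have ha : 7 / 10 ≤ Y 1 c := by
    have h1 := trig_window hφ97 hφ2
    have hsin : 0 ≤ Real.sin (φ c) := by
      have := sin_low (t := φ c) (by linarith) hφ2
      linarith
    exact h1.trans (hr.ylow c hcI hsin)
  set a := Y 1 c with hadef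
  have hB : 0 < b ^ 2 := by positivity
  have hBa : 0 < b ^ 2 * a := by positivity
  have hBa2 : 700 ≤ b ^ 2 * a := by nlinarith
  refine ⟨μ * D / (b ^ 2 * a), b ^ 2 * a * (S - c), fun s => Y 0 (c + s / (b ^ 2 * a)) / a,
    fun j s => Y (j + 1) (c + s / (b ^ 2 * a)) / a, ?_, ?_, ?_⟩
  · refine ⟨h.sys.renorm hB hy0 hc0.le, ?_, ?_, ?_, ?_, ?_, ?_⟩
    · have h1 : b ≤ S - c := by linarith [h.hS, hcA.1.2]
      nlinarith
    · intro s hs
      have h1 : c + s / (b ^ 2 * a) ∈ Icc 0 (2 * b) := by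
        refine ⟨add_nonneg hc0.le (div_nonneg hs.1 hBa.le), ?_⟩
        have : s / (b ^ 2 * a) ≤ b := by
          rw [div_le_iff₀ hBa]
          nlinarith [hs.2]
        linarith [hcA.1.2]
      have h2 := h.energy hP hμ 0 _ h1
      rw [abs_div, abs_of_pos hy0, div_le_iff₀ hy0]
      linarith
    · simp only [zero_add, zero_div, add_zero]
      exact div_self hy0.ne'
    · simp only [zero_div, add_zero, one_add_one_eq_two]
      rw [hzeq]
      field_simp
    · intro m hm N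
      obtain ⟨m, rfl⟩ : ∃ k, m = k + 2 := ⟨m - 2, by omega⟩
      have h1 := hw.F m c hcI N
      have e : ∑ k ∈ Finset.range (N + 1), (Y (m + 2 + k + 1) (c + 0 / (b ^ 2 * a)) / a) ^ 2 =
          (∑ k ∈ Finset.range (N + 1), Y (m + 3 + k) c ^ 2) / a ^ 2 := by
        rw [Finset.sum_div]
        apply Finset.sum_congr rfl
        intro k _
        rw [div_pow, zero_div, add_zero, show m + 2 + k + 1 = m + 3 + k by omega]
      rw [e, div_le_iff₀ (by positivity), ← mul_pow]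
      refine h1.trans ?_
      apply pow_le_pow_left₀ (by positivity)
      calc 14 * ε / (b ^ 2) ^ (m + 2) = 20 * ε / (b ^ 2) ^ (m + 2) * (7 / 10) := by ring
        _ ≤ 20 * ε / (b ^ 2) ^ (m + 2) * a := by gcongr
    · intro j s hs
      have h1 : c + s / (b ^ 2 * a) ∈ Icc 0 S := by
        refine ⟨add_nonneg hc0.le (div_nonneg hs.1 hBa.le), ?_⟩
        have : s / (b ^ 2 * a) ≤ S - c := by
          rw [div_le_iff₀ hBa]
          linarith [hs.2]
        linarith
      have h2 := h.reg (j + 1) _ h1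
      rw [abs_div, abs_of_pos hy0, div_le_iff₀ hy0]
      refine h2.trans ?_
      have h3 : 0 ≤ M * (r / (7 / 10)) * r ^ j := by
        have := (abs_nonneg _).trans h2
        have e : M * (r / (7 / 10)) * r ^ j = M * r ^ (j + 1) * (10 / 7) := by
          rw [pow_succ]; ring
        rw [e]
        positivity
      calc M * r ^ (j + 1) = M * (r / (7 / 10)) * r ^ j * (7 / 10) := by
            rw [pow_succ]; ring
        _ ≤ M * (r / (7 / 10)) * r ^ j * a := by gcongr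
  · have := hP.hD
    positivity
  · rw [div_le_iff₀ hBa]
    have h1 : D ≤ b ^ 2 * a := by
      refine hP.hD'.trans ?_
      rw [mul_comm]
      gcongr
    exact mul_le_mul_of_nonneg_left h1 hμ

/-- the cascade goes on for ever -/
theorem Start.iter (h : Start ε b D μ M r S p Y) (hP : Par ε b D r) (hμ : 0 ≤ μ)
    (hμ' : μ * (1 + D) ^ 2 * b ≤ 1 / 1000) (n : ℕ) :
    ∃ (μ' S' : ℝ) (p' : ℝ → ℝ) (Y' : ℕ → ℝ → ℝ),
      Start ε b D μ' (M * (r / (7 / 10)) ^ n) r S' p' Y' ∧ 0 ≤ μ' ∧ μ' ≤ μ := by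
  induction n with
  | zero => exact ⟨μ, S, p, Y, by simpa using h, hμ, le_rfl⟩
  | succ n ih =>
    obtain ⟨μ1, S1, p1, Y1, h1, h2, h3⟩ := ih
    have h4 : μ1 * (1 + D) ^ 2 * b ≤ 1 / 1000 := by
      refine le_trans ?_ hμ'
      have := hP.hb
      gcongr
    obtain ⟨μ2, S2, p2, Y2, h5, h6, h7⟩ := h1.step hP h2 h4
    refine ⟨μ2, S2, p2, Y2, ?_, h6, h7.trans h3⟩
    have e : M * (r / (7 / 10)) ^ (n + 1) = M * (r / (7 / 10)) ^ n * (r / (7 / 10)) := by
      rw [pow_succ]; ring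
    rw [e]
    exact h5

theorem Start.false (h : Start ε b D μ M r S p Y) (hP : Par ε b D r) (hμ : 0 ≤ μ)
    (hμ' : μ * (1 + D) ^ 2 * b ≤ 1 / 1000) : False := by
  have hb := hP.hb
  have hr : r / (7 / 10) < 1 := by
    rw [div_lt_one (by norm_num)]
    by_contra hc
    push Not at hc
    have h1 := hP.hr'
    have h2 : (7 / 10 : ℝ) ^ 3 ≤ r ^ 3 := pow_le_pow_left₀ (by norm_num) hc 3
    have h3 : (1024 : ℝ) ≤ b ^ 2 := by nlinarith
    norm_num at h2
    nlinarith
  have hr0 : 0 ≤ r / (7 / 10) := by have := hP.hr; positivity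
  have hlim : Tendsto (fun n : ℕ => M * (r / (7 / 10)) ^ n) atTop (𝓝 (M * 0)) :=
    (tendsto_pow_atTop_nhds_zero_of_lt_one hr0 hr).const_mul M
  rw [mul_zero] at hlim
  obtain ⟨n, hn⟩ := (hlim.eventually_lt_const (show (0 : ℝ) < 1 by norm_num)).exists
  obtain ⟨μ', S', p', Y', h1, -, -⟩ := h.iter hP hμ hμ' n
  have h2 := h1.reg 0 0 ⟨le_rfl, by linarith [h1.hS]⟩
  rw [h1.y0, pow_zero, mul_one, abs_one] at h2
  linarith

end Pool.Agent.H42.Mix
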