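import Pool.Agent.H42.Mix.Stage

/-!
Estimates inside one stage.
-/

open Set Filter Topology

namespace Pool.Agent.H42.Mix

variable {ε b D r μ M S : ℝ} {p : ℝ → ℝ} {Y : ℕ → ℝ → ℝ}

/-- a time window inside a stage -/
structure Win (ε b D μ M r S : ℝ) (p : ℝ → ℝ) (Y : ℕ → ℝ → ℝ) (φ : ℝ → ℝ) (s1 : ℝ) : Prop where
  st : Start ε b D μ M r S p Y
  par : Par ε b D r
  hμ : 0 ≤ μ
  hμ' : μ * (1 + D) ^ 2 * b ≤ 1 / 1000
  cφ : Continuous φ
  φ0 : φ 0 = 0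
  dφ : ∀ s ∈ Icc 0 S, HasDerivAt φ (Y 1 s) s
  hs1 : 0 < s1
  hs1b : s1 ≤ b
  hz : ∀ s ∈ Ico 0 s1, |Y 2 s| < (b ^ 4)⁻¹ * Y 1 s
  hφ : ∀ s ∈ Ico 0 s1, φ s < 2

variable {φ : ℝ → ℝ} {s1 : ℝ}

lemma Win.leS (h : Win ε b D μ M r S p Y φ s1) : s1 ≤ S := by
  have := h.par.hb
  have := h.st.hS
  have := h.hs1b
  linarith

lemma Win.εs (h : Win ε b D μ M r S p Y φ s1) : ε ≤ 1 / 100000000 := by
  have hε8 := h.par.hε8
  have hε := h.par.hε
  have : (32 : ℝ) ^ 8 ≤ b ^ 8 := pow_le_pow_left₀ (by norm_num) h.par.hb 8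
  norm_num at this
  nlinarith

lemma Win.θs (h : Win ε b D μ M r S p Y φ s1) : (b ^ 4)⁻¹ ≤ 1 / 1000000 := by
  have hb := h.par.hb
  rw [inv_eq_one_div, div_le_div_iff₀ (by positivity) (by norm_num)]
  have := pow_le_pow_left₀ (by norm_num) hb 4
  norm_num at this ⊢
  linarith

lemma Win.μ3 (h : Win ε b D μ M r S p Y φ s1) : μ * b ≤ 1 / 1000 ∧ μ * D * b ≤ 1 / 1000 ∧
    μ * D ^ 2 * b ≤ 1 / 1000 := by
  have hμ := h.hμ
  have hb := h.par.hb
  have hD := h.par.hD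
  have hμb : 0 ≤ μ * b := mul_nonneg hμ (by linarith)
  have h1 := h.hμ'
  have h2 : μ * (1 + D) ^ 2 * b = μ * b + 2 * (μ * b) * D + (μ * b) * D ^ 2 := by ring
  have h3 : 0 ≤ (μ * b) * D := mul_nonneg hμb hD.le
  have h4 : 0 ≤ (μ * b) * D ^ 2 := by positivity
  refine ⟨by linarith, ?_, ?_⟩
  · have : μ * D * b = (μ * b) * D := by ring
    linarith
  · have : μ * D ^ 2 * b = (μ * b) * D ^ 2 := by ring
    linarith

lemma Win.bound (h : Win ε b D μ M r S p Y φ s1) (j : ℕ) : ∀ s ∈ Icc 0 s1,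
    |Y j s| ≤ 111 / 100 := by
  intro s hs
  exact h.st.energy h.par h.hμ j s ⟨hs.1, by linarith [hs.2, h.hs1b, h.par.hb]⟩

lemma Win.rot (h : Win ε b D μ M r S p Y φ s1) : Rot b (b ^ 4)⁻¹ s1 (Y 0) (Y 1)
    (fun s => (b ^ 2)⁻¹ * p s * (ε * p s + Y 0 s) - μ * Y 0 s - ε * Y 1 s * Y 0 s)
    (fun s => ε * Y 0 s ^ 2 - μ * D * Y 1 s - b ^ 2 * Y 2 s * (ε * Y 1 s + Y 2 s)) φ where
  hb := h.par.hb
  hθ := by have := h.par.hb; positivity
  hθ' := by
    have := h.par.hb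
    rw [inv_mul_cancel₀ (by positivity)]
  hs := h.hs1.le
  hs1 := h.hs1b
  cx := (h.st.sys.cont 0).mono (Icc_subset_Icc_right h.leS)
  cy := (h.st.sys.cont 1).mono (Icc_subset_Icc_right h.leS)
  cφ := h.cφ.continuousOn
  dx s hs := by
    refine (h.st.sys.d0 s ⟨hs.1, hs.2.trans_le h.leS⟩).congr_deriv ?_
    ring
  dy s hs := by
    refine (h.st.sys.dn 0 s ⟨hs.1, hs.2.trans_le h.leS⟩).congr_deriv ?_
    simp only [zero_add, pow_zero, pow_one]
    ring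
  dφ s hs := (h.dφ s ⟨hs.1, (hs.2.le.trans h.leS)⟩).hasDerivWithinAt
  x0 := h.st.y0
  y0 := h.st.y1
  φ0 := h.φ0
  ypos s hs := by
    have h1 := h.hz s hs
    have h2 : 0 < (b ^ 4)⁻¹ := by have := h.par.hb; positivity
    have h3 := (abs_nonneg (Y 2 s)).trans_lt h1
    exact (mul_pos_iff_of_pos_left h2).1 h3
  φlt := h.hφ
  err s hs := by
    have hb := h.par.hb
    have hε := h.par.hε
    have hεs := h.εs
    have hθs := h.θs
    obtain ⟨hm1, hm2, hm3⟩ := h.μ3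
    have hsI : s ∈ Icc 0 s1 := ⟨hs.1, hs.2.le⟩
    have hx := h.bound 0 s hsI
    have hy := h.bound 1 s hsI
    have hp := h.st.hp s ⟨hs.1, by linarith [hs.2, h.hs1b]⟩
    have hz := (h.hz s hs).le
    have hB0 : (0 : ℝ) < (b ^ 2)⁻¹ := by positivity
    have hθ0 : (0 : ℝ) < (b ^ 4)⁻¹ := by positivity
    have hYz : |Y 2 s| ≤ (b ^ 4)⁻¹ * (111 / 100) :=
      hz.trans (mul_le_mul_of_nonneg_left ((le_abs_self _).trans hy) hθ0.le)
    have hμ := h.hμ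
    have hD := h.par.hD
    have a1 : |(b ^ 2)⁻¹ * p s * (ε * p s + Y 0 s) - μ * Y 0 s - ε * Y 1 s * Y 0 s| ≤
        (b ^ 2)⁻¹ * (8 / 5) * (ε * (8 / 5) + 111 / 100) + μ * (111 / 100)
          + ε * (111 / 100) * (111 / 100) := by
      refine (abs_sub _ _).trans (add_le_add ((abs_sub _ _).trans (add_le_add ?_ ?_)) ?_)
      · rw [abs_mul, abs_mul, abs_of_pos hB0]
        have : |ε * p s + Y 0 s| ≤ ε * (8 / 5) + 111 / 100 := by
          refine (abs_add_le _ _).trans (add_le_add ?_ hx)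
          rw [abs_mul, abs_of_pos hε]
          gcongr
        gcongr
      · rw [abs_mul, abs_of_nonneg hμ]
        gcongr
      · rw [abs_mul, abs_mul, abs_of_pos hε]
        gcongr
    have a2 : |ε * Y 0 s ^ 2 - μ * D * Y 1 s - b ^ 2 * Y 2 s * (ε * Y 1 s + Y 2 s)| ≤
        ε * (111 / 100) ^ 2 + μ * D * (111 / 100) + b ^ 2 * ((b ^ 4)⁻¹ * (111 / 100)) *
          (ε * (111 / 100) + (b ^ 4)⁻¹ * (111 / 100)) := by
      refine (abs_sub _ _).trans (add_le_add ((abs_sub _ _).trans (add_le_add ?_ ?_)) ?_)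
      · rw [abs_mul, abs_pow, abs_of_pos hε]
        gcongr
      · rw [abs_mul, abs_of_nonneg (by positivity : 0 ≤ μ * D)]
        gcongr
      · rw [abs_mul, abs_mul, abs_of_nonneg (by positivity : 0 ≤ b ^ 2)]
        have : |ε * Y 1 s + Y 2 s| ≤ ε * (111 / 100) + (b ^ 4)⁻¹ * (111 / 100) := by
          refine (abs_add_le _ _).trans (add_le_add ?_ hYz)
          rw [abs_mul, abs_of_pos hε]
          gcongr
        gcongr
    -- numerical estimates after multiplication with b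
    have hb0 : 0 < b := by linarith
    have n1 : (b ^ 2)⁻¹ * b ≤ 1 / 32 := by
      have : (b ^ 2)⁻¹ * b = 1 / b := by field_simp
      rw [this]
      gcongr
    have n2 : ε * b ≤ 1 / 1000000 := by
      have h8 := h.par.hε8
      have h7 : (32 : ℝ) ^ 7 ≤ b ^ 7 := pow_le_pow_left₀ (by norm_num) hb 7
      norm_num at h7
      have : ε * b ^ 8 = (ε * b) * b ^ 7 := by ring
      have : 0 < ε * b := by positivity
      nlinarith
    have n3 : b ^ 2 * (b ^ 4)⁻¹ * b ≤ 1 / 32 := by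
      have : b ^ 2 * (b ^ 4)⁻¹ * b = 1 / b := by field_simp
      rw [this]
      gcongr
    calc (|(b ^ 2)⁻¹ * p s * (ε * p s + Y 0 s) - μ * Y 0 s - ε * Y 1 s * Y 0 s| +
          |ε * Y 0 s ^ 2 - μ * D * Y 1 s - b ^ 2 * Y 2 s * (ε * Y 1 s + Y 2 s)|) * b
        ≤ (((b ^ 2)⁻¹ * (8 / 5) * (ε * (8 / 5) + 111 / 100) + μ * (111 / 100)
          + ε * (111 / 100) * (111 / 100)) + (ε * (111 / 100) ^ 2 + μ * D * (111 / 100)
          + b ^ 2 * ((b ^ 4)⁻¹ * (111 / 100)) *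
          (ε * (111 / 100) + (b ^ 4)⁻¹ * (111 / 100)))) * b := by gcongr
      _ = ((b ^ 2)⁻¹ * b) * ((8 / 5) * (ε * (8 / 5) + 111 / 100)) + (μ * b) * (111 / 100)
          + (ε * b) * (2 * (111 / 100) ^ 2) + (μ * D * b) * (111 / 100)
          + (b ^ 2 * (b ^ 4)⁻¹ * b) * ((111 / 100) ^ 2 * (ε + (b ^ 4)⁻¹)) := by ring
      _ ≤ (1 / 32) * ((8 / 5) * ((1 / 100000000) * (8 / 5) + 111 / 100)) +
          (1 / 1000) * (111 / 100)
          + (1 / 1000000) * (2 * (111 / 100) ^ 2) + (1 / 1000) * (111 / 100)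
          + (1 / 32) * ((111 / 100) ^ 2 * (1 / 100000000 + 1 / 1000000)) := by gcongr
      _ ≤ 3 / 50 := by norm_num
  elow s hs := by
    have hb := h.par.hb
    have hε := h.par.hε
    have hεs := h.εs
    have hθs := h.θs
    obtain ⟨hm1, hm2, hm3⟩ := h.μ3
    have hsI : s ∈ Icc 0 s1 := ⟨hs.1, hs.2.le⟩
    have hy := (le_abs_self _).trans (h.bound 1 s hsI)
    have hz := (h.hz s hs).le
    have hθ0 : (0 : ℝ) < (b ^ 4)⁻¹ := by positivity
    have hy0 : 0 ≤ Y 1 s := (mul_nonneg_iff_of_pos_left hθ0).1 ((abs_nonneg _).trans hz)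
    have hD := h.par.hD
    have hμD : μ * D ≤ 1 / 1000 := by
      have : 0 ≤ μ * D := mul_nonneg h.hμ hD.le
      nlinarith
    have a1 : b ^ 2 * Y 2 s * (ε * Y 1 s + Y 2 s) ≤ 1 / 1000 * Y 1 s := by
      have h1 : b ^ 2 * Y 2 s * (ε * Y 1 s + Y 2 s) ≤
          b ^ 2 * ((b ^ 4)⁻¹ * Y 1 s) * (ε * Y 1 s + (b ^ 4)⁻¹ * Y 1 s) := by
        refine (le_abs_self _).trans ?_
        rw [abs_mul, abs_mul, abs_of_nonneg (by positivity : 0 ≤ b ^ 2)]
        have : |ε * Y 1 s + Y 2 s| ≤ ε * Y 1 s + (b ^ 4)⁻¹ * Y 1 s := by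
          refine (abs_add_le _ _).trans (add_le_add ?_ hz)
          rw [abs_mul, abs_of_pos hε, abs_of_nonneg hy0]
        gcongr
      have n3 : b ^ 2 * (b ^ 4)⁻¹ ≤ 1 := by
        have e : b ^ 2 * (b ^ 4)⁻¹ = 1 / b ^ 2 := by field_simp
        rw [e, div_le_one (by positivity)]
        exact one_le_pow₀ (by linarith)
      calc _ ≤ _ := h1
        _ = (b ^ 2 * (b ^ 4)⁻¹) * ((ε + (b ^ 4)⁻¹) * Y 1 s) * Y 1 s := by ring
        _ ≤ 1 * ((1 / 100000000 + 1 / 1000000) * (111 / 100)) * Y 1 s := by gcongr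
        _ ≤ 1 / 1000 * Y 1 s := by
          apply mul_le_mul_of_nonneg_right _ hy0
          norm_num
    have a2 : μ * D * Y 1 s ≤ 1 / 1000 * Y 1 s := mul_le_mul_of_nonneg_right hμD hy0
    have a3 : 0 ≤ ε * Y 0 s ^ 2 := by positivity
    linarith

/-- upper bound of the third mode -/
lemma Win.F2 (h : Win ε b D μ M r S p Y φ s1) : ∀ s ∈ Icc 0 s1,
    |Y 2 s| ≤ 112 / 100 * ε * Real.exp (b ^ 2 * φ s) := by
  intro s hs
  have hb := h.par.hb
  have hε := h.par.hε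
  have hr := h.rot
  have h1 := (h.st.sys.chain h.leS 1).tail (Q := 111 / 100) (F := 20 * ε / (b ^ 2) ^ 2)
    (r := b ^ 2) (q := Y 1) (Φ := fun s => b ^ 2 * φ s) (Φ' := fun s => b ^ 2 * Y 1 s) hε.le
    (fun k => mul_nonneg h.hμ (pow_nonneg h.par.hD.le _)) (by positivity) (by norm_num)
    (by positivity) (fun s _ => by rw [pow_one])
    (fun s hs => h.bound 1 s ⟨hs.1, hs.2.le⟩) (h.cφ.continuousOn.const_mul _)
    (fun s hs => (hr.dφ s hs).const_mul _)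
    (fun s hs => by rw [abs_of_pos (hr.ypos s hs)])
    (flux_small h.par.hr h.par.hr' hε.le 2 (fun j s hs => h.st.reg j s
      ⟨hs.1, hs.2.le.trans h.leS⟩))
    (by simpa using h.st.tail 2 le_rfl)
  have h2 := tail_abs (by positivity) (fun N => h1 N s hs) 0
  simp only [h.φ0, mul_zero, sub_zero, add_zero, one_add_one_eq_two] at h2
  refine h2.trans ?_
  have h3 : 20 * ε / (b ^ 2) ^ 2 + ε * (111 / 100) ≤ 112 / 100 * ε := by
    have : 20 * ε / (b ^ 2) ^ 2 ≤ 1 / 100 * ε := by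
      rw [div_le_iff₀ (by positivity)]
      have h4 : (32 : ℝ) ^ 4 ≤ (b ^ 2) ^ 2 := by
        rw [← pow_mul]
        exact pow_le_pow_left₀ (by norm_num) hb 4
      norm_num at h4
      nlinarith
    linarith
  calc Real.exp (b ^ 2 * φ s) * (20 * ε / (b ^ 2) ^ 2 + ε * (111 / 100))
      ≤ Real.exp (b ^ 2 * φ s) * (112 / 100 * ε) := by gcongr
    _ = _ := by ring

lemma exp_two_le : Real.exp 2 ≤ 7389561 / 1000000 := by
  have h : Real.exp 2 = Real.exp 1 ^ 2 := by rw [← Real.exp_nat_mul]; norm_num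
  rw [h]
  have h1 := Real.exp_one_lt_d9
  have h2 := Real.exp_pos 1
  nlinarith

/-- the tail from mode three on -/
lemma Win.F3 (h : Win ε b D μ M r S p Y φ s1) : ∀ s ∈ Icc 0 s1, ∀ N,
    ∑ k ∈ Finset.range (N + 1), Y (3 + k) s ^ 2 ≤ (14 * ε / (b ^ 2) ^ 2) ^ 2 := by
  intro s hs N
  have hb := h.par.hb
  have hε := h.par.hε
  have hr := h.rot
  have hθ0 : (0 : ℝ) < (b ^ 4)⁻¹ := by positivity
  have h1 := (h.st.sys.chain h.leS 2).tail (Q := (b ^ 4)⁻¹ * (111 / 100))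
    (F := 20 * ε / (b ^ 2) ^ 3)
    (r := (b ^ 2) ^ 2) (q := Y 2) (Φ := φ) (Φ' := fun s => Y 1 s) hε.le
    (fun k => mul_nonneg h.hμ (pow_nonneg h.par.hD.le _)) (by positivity) (by positivity)
    (by positivity) (fun s _ => rfl)
    (fun s hs => (h.hz s hs).le.trans (mul_le_mul_of_nonneg_left ((le_abs_self _).trans
      (h.bound 1 s ⟨hs.1, hs.2.le⟩)) hθ0.le)) h.cφ.continuousOn
    (fun s hs => hr.dφ s hs)
    (fun s hs => by
      have h2 := (h.hz s hs).le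
      calc (b ^ 2) ^ 2 * |Y 2 s| ≤ (b ^ 2) ^ 2 * ((b ^ 4)⁻¹ * Y 1 s) := by gcongr
        _ = Y 1 s := by field_simp)
    (flux_small h.par.hr h.par.hr' hε.le 3 (fun j s hs => h.st.reg j s
      ⟨hs.1, hs.2.le.trans h.leS⟩))
    (by simpa using h.st.tail 3 (by norm_num)) N s hs
  refine h1.trans ?_
  apply pow_le_pow_left₀ (by positivity)
  have h3 : Real.exp (φ s - φ 0) ≤ 7389561 / 1000000 := by
    refine (Real.exp_le_exp.2 ?_).trans exp_two_le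
    rw [h.φ0, sub_zero]
    exact hr.φle h.hs1 s hs
  have hb2 : (1024 : ℝ) ≤ b ^ 2 := by nlinarith
  have e1 : 20 * ε / (b ^ 2) ^ 3 = ε / (b ^ 2) ^ 2 * (20 / b ^ 2) := by field_simp
  have e2 : ε * ((b ^ 4)⁻¹ * (111 / 100)) = ε / (b ^ 2) ^ 2 * (111 / 100) := by field_simp
  have e3 : 20 / b ^ 2 ≤ 20 / 1024 := by gcongr
  rw [e1, e2]
  calc Real.exp (φ s - φ 0) * (ε / (b ^ 2) ^ 2 * (20 / b ^ 2) + ε / (b ^ 2) ^ 2 * (111 / 100))
      ≤ 7389561 / 1000000 * (ε / (b ^ 2) ^ 2 * (20 / 1024) + ε / (b ^ 2) ^ 2 * (111 / 100)) := by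
        gcongr
    _ = (7389561 / 1000000 * (20 / 1024 + 111 / 100)) * (ε / (b ^ 2) ^ 2) := by ring
    _ ≤ 14 * (ε / (b ^ 2) ^ 2) := by
        gcongr
        norm_num
    _ = 14 * ε / (b ^ 2) ^ 2 := by ring

/-- all tails -/
lemma Win.F (h : Win ε b D μ M r S p Y φ s1) (m : ℕ) : ∀ s ∈ Icc 0 s1, ∀ N,
    ∑ k ∈ Finset.range (N + 1), Y (m + 3 + k) s ^ 2 ≤ (14 * ε / (b ^ 2) ^ (m + 2)) ^ 2 := by
  induction m with
  | zero => simpa using h.F3
  | succ m ih =>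
    intro s hs N
    have hb := h.par.hb
    have hε := h.par.hε
    have hr := h.rot
    have hε8 := h.par.hε8
    have hεb : 14 * ε * b ^ 2 * b ≤ 1 / 1000 := by
      have h5 : (32 : ℝ) ^ 5 ≤ b ^ 5 := pow_le_pow_left₀ (by norm_num) hb 5
      norm_num at h5
      have e : ε * b ^ 8 = (ε * b ^ 3) * b ^ 5 := by ring
      have e0 : 0 < ε * b ^ 3 := by positivity
      nlinarith
    have hq : ∀ t ∈ Icc 0 s1, |Y (m + 3) t| ≤ 14 * ε / (b ^ 2) ^ (m + 2) := fun t ht => by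
      have := tail_abs (by positivity) (fun N => ih t ht N) 0
      simpa using this
    have h1 := (h.st.sys.chain h.leS (m + 3)).tail (Q := 14 * ε / (b ^ 2) ^ (m + 2))
      (F := 20 * ε / (b ^ 2) ^ (m + 4))
      (r := (b ^ 2) ^ (m + 3)) (q := Y (m + 3)) (Φ := fun s => 14 * ε * b ^ 2 * s)
      (Φ' := fun s => 14 * ε * b ^ 2) hε.le
      (fun k => mul_nonneg h.hμ (pow_nonneg h.par.hD.le _)) (by positivity) (by positivity)
      (by positivity) (fun s _ => rfl)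
      (fun t ht => hq t ⟨ht.1, ht.2.le⟩) (by fun_prop)
      (fun s hs => by
        simpa using ((hasDerivAt_id' s).const_mul (14 * ε * b ^ 2)).hasDerivWithinAt)
      (fun t ht => by
        have h2 := hq t ⟨ht.1, ht.2.le⟩
        calc (b ^ 2) ^ (m + 3) * |Y (m + 3) t| ≤
            (b ^ 2) ^ (m + 3) * (14 * ε / (b ^ 2) ^ (m + 2)) := by gcongr
          _ = 14 * ε * b ^ 2 := by
            rw [pow_succ (b ^ 2) (m + 2)]
            field_simp)
      (flux_small h.par.hr h.par.hr' hε.le (m + 4) (fun j s hs => h.st.reg j s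
        ⟨hs.1, hs.2.le.trans h.leS⟩))
      (by simpa using h.st.tail (m + 4) (by omega)) N s hs
    have e0 : m + 1 + 3 = m + 3 + 1 := by omega
    rw [e0]
    refine h1.trans ?_
    apply pow_le_pow_left₀ (by positivity)
    have hb2 : (1024 : ℝ) ≤ b ^ 2 := by nlinarith
    have h3 : Real.exp (14 * ε * b ^ 2 * s - 14 * ε * b ^ 2 * 0) ≤ 2 := by
      have h4 : 14 * ε * b ^ 2 * s ≤ 14 * ε * b ^ 2 * b := by
        gcongr
        exact hs.2.trans h.hs1b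
      have h5 : Real.exp (14 * ε * b ^ 2 * s - 14 * ε * b ^ 2 * 0) ≤ Real.exp (1 / 1000) := by
        apply Real.exp_le_exp.2
        linarith
      refine h5.trans ?_
      have := Real.exp_bound_div_one_sub_of_interval (x := 1 / 1000) (by norm_num) (by norm_num)
      norm_num at this ⊢
      linarith
    have e1 : 20 * ε / (b ^ 2) ^ (m + 4) = ε / (b ^ 2) ^ (m + 3) * (20 / b ^ 2) := by
      rw [pow_succ (b ^ 2) (m + 3)]
      field_simp
    have e2 : ε * (14 * ε / (b ^ 2) ^ (m + 2)) = ε / (b ^ 2) ^ (m + 3) * (14 * ε * b ^ 2) := by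
      rw [pow_succ (b ^ 2) (m + 2)]
      field_simp
    have e3 : 20 / b ^ 2 ≤ 20 / 1024 := by gcongr
    have e4 : 14 * ε * b ^ 2 ≤ 1 / 1000 := by
      have : 0 < 14 * ε * b ^ 2 := by positivity
      nlinarith
    rw [e1, e2, show m + 1 + 2 = m + 3 by omega]
    calc Real.exp (14 * ε * b ^ 2 * s - 14 * ε * b ^ 2 * 0) *
          (ε / (b ^ 2) ^ (m + 3) * (20 / b ^ 2) + ε / (b ^ 2) ^ (m + 3) * (14 * ε * b ^ 2))
        ≤ 2 * (ε / (b ^ 2) ^ (m + 3) * (20 / 1024) + ε / (b ^ 2) ^ (m + 3) * (1 / 1000)) := by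
          gcongr
      _ = (2 * (20 / 1024 + 1 / 1000)) * (ε / (b ^ 2) ^ (m + 3)) := by ring
      _ ≤ 14 * (ε / (b ^ 2) ^ (m + 3)) := by
          gcongr
          norm_num
      _ = 14 * ε / (b ^ 2) ^ (m + 3) := by ring

/-- lower bound of the third mode -/
lemma Win.zlow (h : Win ε b D μ M r S p Y φ s1) : ∀ s ∈ Icc 0 s1, 1 / 2 ≤ φ s →
    1 / 3 * (ε / b ^ 2) * Real.exp (b ^ 2 * φ s) ≤ Y 2 s := by
  have hb := h.par.hb
  have hε := h.par.hε
  have hr := h.rot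
  have hεs := h.εs
  have hθs := h.θs
  obtain ⟨hm1, hm2, hm3⟩ := h.μ3
  refine hr.zlow (B := b ^ 2) (ν := μ * D ^ 2)
    (z' := fun s => (b ^ 2) ^ 1 * Y 1 s * (ε * Y 1 s + Y 2 s) - μ * D ^ 2 * Y 2 s
      - (b ^ 2) ^ 2 * Y 3 s * (ε * Y 2 s + Y 3 s)) rfl hε
    (mul_nonneg h.hμ (by positivity)) hm3 ((h.st.sys.cont 2).mono (Icc_subset_Icc_right h.leS))
    (fun s hs => h.st.sys.dn 1 s ⟨hs.1, hs.2.trans_le h.leS⟩) ?_ ?_
  · intro s hs
    have hsI : s ∈ Icc 0 s1 := ⟨hs.1, hs.2.le⟩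
    have hw : |Y 3 s| ≤ 14 * ε / (b ^ 2) ^ 2 := by
      have := tail_abs (by positivity) (fun N => h.F3 s hsI N) 0
      simpa using this
    have hy := hr.yθ h.hs1 s hsI
    have hy1 := (le_abs_self _).trans (h.bound 1 s hsI)
    have hz := (h.hz s hs).le
    have hθ0 : (0 : ℝ) < (b ^ 4)⁻¹ := by positivity
    have hz2 : |Y 2 s| ≤ 2 * (b ^ 4)⁻¹ := by
      refine hz.trans ?_
      nlinarith
    have h1 : (b ^ 2) ^ 2 * Y 3 s * (ε * Y 2 s + Y 3 s) ≤ 1 / 2 * (b ^ 2 * ε * Y 1 s ^ 2) := by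
      have h2 : |ε * Y 2 s + Y 3 s| ≤ ε * (2 * (b ^ 4)⁻¹) + 14 * ε / (b ^ 2) ^ 2 := by
        refine (abs_add_le _ _).trans (add_le_add ?_ hw)
        rw [abs_mul, abs_of_pos hε]
        gcongr
      calc (b ^ 2) ^ 2 * Y 3 s * (ε * Y 2 s + Y 3 s)
          ≤ |(b ^ 2) ^ 2 * Y 3 s * (ε * Y 2 s + Y 3 s)| := le_abs_self _
        _ = (b ^ 2) ^ 2 * |Y 3 s| * |ε * Y 2 s + Y 3 s| := by
          rw [abs_mul, abs_mul, abs_of_nonneg (by positivity : 0 ≤ (b ^ 2) ^ 2)]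
        _ ≤ (b ^ 2) ^ 2 * (14 * ε / (b ^ 2) ^ 2) * (ε * (2 * (b ^ 4)⁻¹) + 14 * ε / (b ^ 2) ^ 2) := by
          gcongr
        _ = 224 * ε ^ 2 * (b ^ 4)⁻¹ := by
          field_simp
          ring
        _ ≤ 1 / 2 * (b ^ 2 * ε * ((b ^ 4)⁻¹) ^ 2) := by
          have e1 : 1 / 2 * (b ^ 2 * ε * ((b ^ 4)⁻¹) ^ 2) = ε * (b ^ 4)⁻¹ * (1 / (2 * b ^ 2)) := by
            field_simp
          have e2 : 224 * ε ^ 2 * (b ^ 4)⁻¹ = ε * (b ^ 4)⁻¹ * (224 * ε) := by ring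
          rw [e1, e2]
          apply mul_le_mul_of_nonneg_left _ (by positivity)
          rw [le_div_iff₀ (by positivity)]
          have h8 := h.par.hε8
          have h6 : (32 : ℝ) ^ 6 ≤ b ^ 6 := pow_le_pow_left₀ (by norm_num) hb 6
          norm_num at h6
          have e : ε * b ^ 8 = (ε * b ^ 2) * b ^ 6 := by ring
          have e0 : 0 < ε * b ^ 2 := by positivity
          nlinarith
        _ ≤ 1 / 2 * (b ^ 2 * ε * Y 1 s ^ 2) := by gcongr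
    have e : (b ^ 2) ^ 1 * Y 1 s * (ε * Y 1 s + Y 2 s) =
      b ^ 2 * Y 1 s * Y 2 s + b ^ 2 * ε * Y 1 s ^ 2 := by ring
    simp only [e]
    linarith
  · have h1 := tail_abs (V := fun k => Y (2 + k)) (by positivity) (h.st.tail 2 le_rfl) 0
    simp only [add_zero] at h1
    exact (abs_le.1 h1).1

end Pool.Agent.H42.Mix
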